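import Mathlib

/-!
# Complete character sums attached to `x + b / x + a`
-/

set_option autoImplicit false

namespace Pool.Agent.Lib.MP_6179b0_nt

/-- `Bnd C κ`: for every odd prime `p`, all `a, b` in `ZMod p` with `b ≠ 0` and `a ^ 2 ≠ 4 * b` and every
Dirichlet character `ψ` mod `p` the sum of `χ (x + b / x + a) * ψ x` over the units is at most `C * p ^ κ`
(`χ` = quadratic character). -/
def Bnd (C κ : ℝ) : Prop :=
  ∀ (p : ℕ) [Fact p.Prime], p ≠ 2 → ∀ a b : ZMod p, b ≠ 0 → a ^ 2 ≠ 4 * b →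
    ∀ ψ : DirichletCharacter ℂ p,
      ‖∑ x : (ZMod p)ˣ, ((quadraticChar (ZMod p)
          ((x : ZMod p) + b * ((x⁻¹ : (ZMod p)ˣ) : ZMod p) + a) : ℤ) : ℂ) * ψ (x : ZMod p)‖
        ≤ C * (p : ℝ) ^ κ

end Pool.Agent.Lib.MP_6179b0_nt
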