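import Mathlib

/-!
# Bilinear forms with a multiplicative convolution kernel
-/

set_option autoImplicit false

namespace Pool.Agent.Lib.MP_6179b0_nt

open Finset

theorem oper_orth (p : ℕ) [Fact p.Prime] (z : (ZMod p)ˣ) :
    ∑ ψ : DirichletCharacter ℂ p, ψ (z : ZMod p) = if z = 1 then (p.totient : ℂ) else 0 := by
  rw [DirichletCharacter.sum_characters_eq ℂ (z : ZMod p)]
  by_cases h : z = 1
  · simp [h]
  · rw [if_neg h, if_neg]
    intro h1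
    exact h (Units.ext h1)

theorem oper_conj (p : ℕ) [Fact p.Prime] (ψ : DirichletCharacter ℂ p) (x : (ZMod p)ˣ) :
    (starRingEnd ℂ) (ψ ((x⁻¹ : (ZMod p)ˣ) : ZMod p)) = ψ (x : ZMod p) := by
  have h1 : ‖ψ ((x⁻¹ : (ZMod p)ˣ) : ZMod p)‖ = 1 := ψ.unit_norm_eq_one x⁻¹
  rw [← Complex.inv_eq_conj h1]
  have h2 : ψ ((x⁻¹ : (ZMod p)ˣ) : ZMod p) * ψ (x : ZMod p) = 1 := by
    rw [← map_mul, ← Units.val_mul, inv_mul_cancel, Units.val_one, map_one]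
  exact inv_eq_of_mul_eq_one_right h2

theorem oper_parseval (p : ℕ) [Fact p.Prime] (u : (ZMod p)ˣ → ℝ) :
    ∑ ψ : DirichletCharacter ℂ p, ‖∑ x : (ZMod p)ˣ, (u x : ℂ) * ψ ((x⁻¹ : (ZMod p)ˣ) : ZMod p)‖ ^ 2 =
      (p.totient : ℝ) * ∑ x, u x ^ 2 := by
  have h : ((∑ ψ : DirichletCharacter ℂ p,
      ‖∑ x : (ZMod p)ˣ, (u x : ℂ) * ψ ((x⁻¹ : (ZMod p)ˣ) : ZMod p)‖ ^ 2 : ℝ) : ℂ) =
      (((p.totient : ℝ) * ∑ x, u x ^ 2 : ℝ) : ℂ) := by
    simp only [Complex.ofReal_sum, Complex.ofReal_mul, Complex.ofReal_natCast, Complex.ofReal_pow]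
    have e1 : ∀ ψ : DirichletCharacter ℂ p,
        ((‖∑ x : (ZMod p)ˣ, (u x : ℂ) * ψ ((x⁻¹ : (ZMod p)ˣ) : ZMod p)‖ : ℝ) : ℂ) ^ 2 =
        ∑ x : (ZMod p)ˣ, ∑ y : (ZMod p)ˣ, (u x : ℂ) * (u y : ℂ) *
          ψ ((x⁻¹ * y : (ZMod p)ˣ) : ZMod p) := by
      intro ψ
      rw [← Complex.mul_conj', map_sum, Finset.sum_mul_sum]
      refine Finset.sum_congr rfl fun x _ => Finset.sum_congr rfl fun y _ => ?_
      rw [map_mul, Complex.conj_ofReal, oper_conj, Units.val_mul, map_mul]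
      ring
    simp_rw [e1]
    rw [Finset.sum_comm]
    have e2 : ∀ x : (ZMod p)ˣ, ∑ ψ : DirichletCharacter ℂ p, ∑ y : (ZMod p)ˣ,
        (u x : ℂ) * (u y : ℂ) * ψ ((x⁻¹ * y : (ZMod p)ˣ) : ZMod p) =
        (p.totient : ℂ) * (u x : ℂ) ^ 2 := by
      intro x
      rw [Finset.sum_comm]
      have e3 : ∀ y : (ZMod p)ˣ, ∑ ψ : DirichletCharacter ℂ p,
          (u x : ℂ) * (u y : ℂ) * ψ ((x⁻¹ * y : (ZMod p)ˣ) : ZMod p) =
          if y = x then (p.totient : ℂ) * (u x : ℂ) ^ 2 else 0 := by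
        intro y
        rw [← Finset.mul_sum, oper_orth]
        by_cases h : y = x
        · subst h; simp; ring
        · rw [if_neg h, if_neg, mul_zero]
          intro h1
          exact h (by rw [inv_mul_eq_one] at h1; exact h1.symm)
      simp_rw [e3]
      simp
    simp_rw [e2]
    rw [Finset.mul_sum]
  exact_mod_cast h

theorem oper (p : ℕ) [Fact p.Prime] (g : (ZMod p)ˣ → ℝ) (B : ℝ)
    (hB : ∀ ψ : DirichletCharacter ℂ p, ‖∑ x : (ZMod p)ˣ, (g x : ℂ) * ψ (x : ZMod p)‖ ≤ B)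
    (u v : (ZMod p)ˣ → ℝ) :
    |∑ x, ∑ y, u x * v y * g (x * y)| ≤ B * √(∑ x, u x ^ 2) * √(∑ y, v y ^ 2) := by
  have hφ : 0 < p.totient := Nat.totient_pos.2 (Fact.out : p.Prime).pos
  have hφr : (0 : ℝ) < (p.totient : ℝ) := by exact_mod_cast hφ
  have hφc : (p.totient : ℂ) ≠ 0 := by exact_mod_cast hφ.ne'
  obtain ⟨G, hG⟩ : ∃ G : DirichletCharacter ℂ p → ℂ, G = fun ψ =>
    ∑ x : (ZMod p)ˣ, (g x : ℂ) * ψ (x : ZMod p) := ⟨_, rfl⟩
  obtain ⟨U, hU⟩ : ∃ G : DirichletCharacter ℂ p → ℂ, G = fun ψ =>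
    ∑ x : (ZMod p)ˣ, (u x : ℂ) * ψ ((x⁻¹ : (ZMod p)ˣ) : ZMod p) := ⟨_, rfl⟩
  obtain ⟨V, hV⟩ : ∃ G : DirichletCharacter ℂ p → ℂ, G = fun ψ =>
    ∑ x : (ZMod p)ˣ, (v x : ℂ) * ψ ((x⁻¹ : (ZMod p)ˣ) : ZMod p) := ⟨_, rfl⟩
  -- inversion
  have hinv : ∀ z : (ZMod p)ˣ, (p.totient : ℂ) * (g z : ℂ) =
      ∑ ψ : DirichletCharacter ℂ p, G ψ * ψ ((z⁻¹ : (ZMod p)ˣ) : ZMod p) := by
    intro z
    rw [hG]
    simp only
    simp_rw [Finset.sum_mul]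
    rw [Finset.sum_comm]
    have e1 : ∀ x : (ZMod p)ˣ, ∑ ψ : DirichletCharacter ℂ p,
        (g x : ℂ) * ψ (x : ZMod p) * ψ ((z⁻¹ : (ZMod p)ˣ) : ZMod p) =
        if x = z then (p.totient : ℂ) * (g z : ℂ) else 0 := by
      intro x
      have e2 : ∀ ψ : DirichletCharacter ℂ p,
          (g x : ℂ) * ψ (x : ZMod p) * ψ ((z⁻¹ : (ZMod p)ˣ) : ZMod p) =
          (g x : ℂ) * ψ ((x * z⁻¹ : (ZMod p)ˣ) : ZMod p) := by
        intro ψ
        rw [Units.val_mul, map_mul]; ring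
      simp_rw [e2]
      rw [← Finset.mul_sum, oper_orth]
      by_cases h : x = z
      · subst h; simp; ring
      · rw [if_neg h, if_neg, mul_zero]
        intro h1
        exact h (by rw [mul_inv_eq_one] at h1; exact h1)
    simp_rw [e1]
    simp
  have hmain : (p.totient : ℂ) * ((∑ x, ∑ y, u x * v y * g (x * y) : ℝ) : ℂ) =
      ∑ ψ : DirichletCharacter ℂ p, G ψ * (U ψ * V ψ) := by
    push_cast
    rw [Finset.mul_sum]
    simp_rw [Finset.mul_sum]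
    have e1 : ∀ x y : (ZMod p)ˣ, (p.totient : ℂ) * ((u x : ℂ) * (v y : ℂ) * (g (x * y) : ℂ)) =
        ∑ ψ : DirichletCharacter ℂ p, G ψ * (((u x : ℂ) * ψ ((x⁻¹ : (ZMod p)ˣ) : ZMod p)) *
          ((v y : ℂ) * ψ ((y⁻¹ : (ZMod p)ˣ) : ZMod p))) := by
      intro x y
      calc (p.totient : ℂ) * ((u x : ℂ) * (v y : ℂ) * (g (x * y) : ℂ))
          = (u x : ℂ) * (v y : ℂ) * ((p.totient : ℂ) * (g (x * y) : ℂ)) := by ring
        _ = _ := by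
          rw [hinv, Finset.mul_sum]
          refine Finset.sum_congr rfl fun ψ _ => ?_
          rw [mul_inv, Units.val_mul, map_mul]
          ring
    simp_rw [e1]
    rw [hU, hV]
    simp only
    simp_rw [Finset.sum_mul_sum, Finset.mul_sum]
    calc ∑ x : (ZMod p)ˣ, ∑ y : (ZMod p)ˣ, ∑ ψ : DirichletCharacter ℂ p,
          G ψ * (((u x : ℂ) * ψ ((x⁻¹ : (ZMod p)ˣ) : ZMod p)) *
          ((v y : ℂ) * ψ ((y⁻¹ : (ZMod p)ˣ) : ZMod p)))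
        = ∑ x : (ZMod p)ˣ, ∑ ψ : DirichletCharacter ℂ p, ∑ y : (ZMod p)ˣ,
          G ψ * (((u x : ℂ) * ψ ((x⁻¹ : (ZMod p)ˣ) : ZMod p)) *
          ((v y : ℂ) * ψ ((y⁻¹ : (ZMod p)ˣ) : ZMod p))) :=
            Finset.sum_congr rfl fun x _ => Finset.sum_comm
      _ = _ := Finset.sum_comm
  have hnorm : (p.totient : ℝ) * |∑ x, ∑ y, u x * v y * g (x * y)| ≤
      B * ((p.totient : ℝ) * (√(∑ x, u x ^ 2) * √(∑ y, v y ^ 2))) := by
    have h1 : (p.totient : ℝ) * |∑ x, ∑ y, u x * v y * g (x * y)| =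
        ‖∑ ψ : DirichletCharacter ℂ p, G ψ * (U ψ * V ψ)‖ := by
      rw [← hmain, norm_mul, Complex.norm_natCast, Complex.norm_real, Real.norm_eq_abs]
    rw [h1]
    have hB0 : 0 ≤ B := le_trans (norm_nonneg _) (hB 1)
    calc ‖∑ ψ : DirichletCharacter ℂ p, G ψ * (U ψ * V ψ)‖
        ≤ ∑ ψ : DirichletCharacter ℂ p, ‖G ψ * (U ψ * V ψ)‖ := norm_sum_le _ _
      _ ≤ ∑ ψ : DirichletCharacter ℂ p, B * (‖U ψ‖ * ‖V ψ‖) := by
          refine Finset.sum_le_sum fun ψ _ => ?_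
          rw [norm_mul, norm_mul]
          refine mul_le_mul_of_nonneg_right ?_ (by positivity)
          rw [hG]
          exact hB ψ
      _ = B * ∑ ψ : DirichletCharacter ℂ p, ‖U ψ‖ * ‖V ψ‖ := by rw [Finset.mul_sum]
      _ ≤ B * (√(∑ ψ : DirichletCharacter ℂ p, ‖U ψ‖ ^ 2) *
          √(∑ ψ : DirichletCharacter ℂ p, ‖V ψ‖ ^ 2)) := by
          refine mul_le_mul_of_nonneg_left ?_ hB0
          exact Real.sum_mul_le_sqrt_mul_sqrt _ _ _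
      _ = B * (√((p.totient : ℝ) * ∑ x, u x ^ 2) * √((p.totient : ℝ) * ∑ x, v x ^ 2)) := by
          rw [hU, hV]
          simp only
          rw [oper_parseval, oper_parseval]
      _ = _ := by
          rw [Real.sqrt_mul hφr.le, Real.sqrt_mul hφr.le]
          have := Real.mul_self_sqrt hφr.le
          calc B * (√(p.totient : ℝ) * √(∑ x, u x ^ 2) * (√(p.totient : ℝ) * √(∑ x, v x ^ 2)))
              = B * ((√(p.totient : ℝ) * √(p.totient : ℝ)) * (√(∑ x, u x ^ 2) * √(∑ x, v x ^ 2))) := by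
                ring
            _ = _ := by rw [this]
  have h9 : (p.totient : ℝ) * |∑ x, ∑ y, u x * v y * g (x * y)| ≤
      (p.totient : ℝ) * (B * √(∑ x, u x ^ 2) * √(∑ y, v y ^ 2)) := by
    refine le_trans hnorm (le_of_eq ?_)
    ring
  exact le_of_mul_le_mul_left h9 hφr

end Pool.Agent.Lib.MP_6179b0_nt
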