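import Mathlib

/-!
# Tensor products of bounded bilinear forms
-/

set_option autoImplicit false

namespace Pool.Agent.Lib.MP_6179b0_nt

open Finset

/-- one-sided form of a bilinear bound -/
theorem tensor_one {X Y : Type} [Fintype X] [Fintype Y] (k : X → Y → ℝ) (B : ℝ) (hB : 0 ≤ B)
    (hk : ∀ (u : X → ℝ) (v : Y → ℝ),
      |∑ x, ∑ y, u x * v y * k x y| ≤ B * √(∑ x, u x ^ 2) * √(∑ y, v y ^ 2)) (u : X → ℝ) :
    ∑ y, (∑ x, u x * k x y) ^ 2 ≤ B ^ 2 * ∑ x, u x ^ 2 := by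
  set v : Y → ℝ := fun y => ∑ x, u x * k x y with hv
  have h1 : ∑ x, ∑ y, u x * v y * k x y = ∑ y, v y ^ 2 := by
    rw [Finset.sum_comm]
    refine Finset.sum_congr rfl fun y _ => ?_
    rw [pow_two]
    nth_rw 3 [hv]
    simp only
    rw [Finset.mul_sum]
    refine Finset.sum_congr rfl fun x _ => ?_
    ring
  have h2 := hk u v
  rw [h1] at h2
  have h3 : 0 ≤ ∑ y, v y ^ 2 := Finset.sum_nonneg fun y _ => sq_nonneg _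
  rw [abs_of_nonneg h3] at h2
  have h4 : 0 ≤ ∑ x, u x ^ 2 := Finset.sum_nonneg fun y _ => sq_nonneg _
  set s := √(∑ y, v y ^ 2) with hs
  have h5 : s ^ 2 = ∑ y, v y ^ 2 := Real.sq_sqrt h3
  have hs0 : 0 ≤ s := Real.sqrt_nonneg _
  rw [← h5] at h2 ⊢
  set r := √(∑ x, u x ^ 2) with hr
  have h6 : r ^ 2 = ∑ x, u x ^ 2 := Real.sq_sqrt h4
  have hr0 : 0 ≤ r := Real.sqrt_nonneg _
  rw [← h6, ← mul_pow]
  rcases hs0.eq_or_lt with h | h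
  · rw [← h, zero_pow two_ne_zero]; exact sq_nonneg _
  · have h7 : s ≤ B * r := by
      have : s * s ≤ (B * r) * s := by rw [← pow_two]; exact h2
      exact le_of_mul_le_mul_right this h
    exact pow_le_pow_left₀ hs0 h7 2

/-- two factors -/
theorem tensor_two {X₁ Y₁ X₂ Y₂ : Type} [Fintype X₁] [Fintype Y₁] [Fintype X₂] [Fintype Y₂]
    (k₁ : X₁ → Y₁ → ℝ) (k₂ : X₂ → Y₂ → ℝ) (B₁ B₂ : ℝ) (hB₁ : 0 ≤ B₁) (hB₂ : 0 ≤ B₂)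
    (hk₁ : ∀ (u : X₁ → ℝ) (v : Y₁ → ℝ),
      |∑ x, ∑ y, u x * v y * k₁ x y| ≤ B₁ * √(∑ x, u x ^ 2) * √(∑ y, v y ^ 2))
    (hk₂ : ∀ (u : X₂ → ℝ) (v : Y₂ → ℝ),
      |∑ x, ∑ y, u x * v y * k₂ x y| ≤ B₂ * √(∑ x, u x ^ 2) * √(∑ y, v y ^ 2))
    (u : X₁ × X₂ → ℝ) (v : Y₁ × Y₂ → ℝ) :
    |∑ x, ∑ y, u x * v y * (k₁ x.1 y.1 * k₂ x.2 y.2)| ≤
      (B₁ * B₂) * √(∑ x, u x ^ 2) * √(∑ y, v y ^ 2) := by
  -- w x₁ y₂
  set w : X₁ → Y₂ → ℝ := fun x₁ y₂ => ∑ x₂, u (x₁, x₂) * k₂ x₂ y₂ with hw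
  have h1 : ∑ x, ∑ y, u x * v y * (k₁ x.1 y.1 * k₂ x.2 y.2) =
      ∑ y₂, ∑ x₁, ∑ y₁, w x₁ y₂ * v (y₁, y₂) * k₁ x₁ y₁ := by
    rw [Fintype.sum_prod_type]
    have e1 : ∀ x₁ x₂, ∑ y : Y₁ × Y₂, u (x₁, x₂) * v y * (k₁ (x₁, x₂).1 y.1 * k₂ (x₁, x₂).2 y.2) =
        ∑ y₂, ∑ y₁, u (x₁, x₂) * v (y₁, y₂) * (k₁ x₁ y₁ * k₂ x₂ y₂) := by
      intro x₁ x₂
      rw [Fintype.sum_prod_type_right]
    simp_rw [e1]
    have e2 : ∀ x₁ : X₁, ∑ x₂, ∑ y₂, ∑ y₁, u (x₁, x₂) * v (y₁, y₂) * (k₁ x₁ y₁ * k₂ x₂ y₂) =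
        ∑ y₂, ∑ y₁, w x₁ y₂ * v (y₁, y₂) * k₁ x₁ y₁ := by
      intro x₁
      rw [Finset.sum_comm]
      refine Finset.sum_congr rfl fun y₂ _ => ?_
      rw [Finset.sum_comm]
      refine Finset.sum_congr rfl fun y₁ _ => ?_
      rw [hw]
      simp only
      rw [Finset.sum_mul, Finset.sum_mul]
      refine Finset.sum_congr rfl fun x₂ _ => ?_
      ring
    simp_rw [e2]
    rw [Finset.sum_comm]
  rw [h1]
  have h2 : ∀ y₂, |∑ x₁, ∑ y₁, w x₁ y₂ * v (y₁, y₂) * k₁ x₁ y₁| ≤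
      B₁ * (√(∑ x₁, w x₁ y₂ ^ 2) * √(∑ y₁, v (y₁, y₂) ^ 2)) := by
    intro y₂
    have := hk₁ (fun x₁ => w x₁ y₂) (fun y₁ => v (y₁, y₂))
    rw [mul_assoc] at this
    exact this
  refine le_trans (Finset.abs_sum_le_sum_abs _ _) ?_
  refine le_trans (Finset.sum_le_sum fun y₂ _ => h2 y₂) ?_
  rw [← Finset.mul_sum]
  have h3 := Real.sum_sqrt_mul_sqrt_le (Finset.univ : Finset Y₂)
    (f := fun y₂ => ∑ x₁, w x₁ y₂ ^ 2) (g := fun y₂ => ∑ y₁, v (y₁, y₂) ^ 2)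
    (fun _ => Finset.sum_nonneg fun _ _ => sq_nonneg _)
    (fun _ => Finset.sum_nonneg fun _ _ => sq_nonneg _)
  have h4 : ∑ y₂, ∑ x₁, w x₁ y₂ ^ 2 ≤ B₂ ^ 2 * ∑ x, u x ^ 2 := by
    rw [Finset.sum_comm, Fintype.sum_prod_type, Finset.mul_sum]
    refine Finset.sum_le_sum fun x₁ _ => ?_
    exact tensor_one k₂ B₂ hB₂ hk₂ (fun x₂ => u (x₁, x₂))
  have h5 : ∑ y₂, ∑ y₁, v (y₁, y₂) ^ 2 = ∑ y, v y ^ 2 := by
    rw [Fintype.sum_prod_type_right]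
  rw [h5] at h3
  have h6 : √(∑ y₂, ∑ x₁, w x₁ y₂ ^ 2) ≤ B₂ * √(∑ x, u x ^ 2) := by
    refine le_trans (Real.sqrt_le_sqrt h4) ?_
    rw [Real.sqrt_mul (sq_nonneg _), Real.sqrt_sq hB₂]
  calc B₁ * _ ≤ B₁ * (B₂ * √(∑ x, u x ^ 2) * √(∑ y, v y ^ 2)) := by
        refine mul_le_mul_of_nonneg_left (le_trans h3 ?_) hB₁
        exact mul_le_mul_of_nonneg_right h6 (Real.sqrt_nonneg _)
    _ = _ := by ring

theorem tensor {t : ℕ} (X Y : Fin t → Type) [∀ i, Fintype (X i)] [∀ i, Fintype (Y i)]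
    (k : ∀ i, X i → Y i → ℝ) (B : Fin t → ℝ) (hB : ∀ i, 0 ≤ B i)
    (hk : ∀ i (u : X i → ℝ) (v : Y i → ℝ),
      |∑ x, ∑ y, u x * v y * k i x y| ≤ B i * √(∑ x, u x ^ 2) * √(∑ y, v y ^ 2))
    (u : (∀ i, X i) → ℝ) (v : (∀ i, Y i) → ℝ) :
    |∑ x, ∑ y, u x * v y * ∏ i, k i (x i) (y i)| ≤
      (∏ i, B i) * √(∑ x, u x ^ 2) * √(∑ y, v y ^ 2) := by
  induction t with
  | zero =>
    simp only [Finset.univ_eq_empty, Finset.prod_empty, mul_one, one_mul]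
    have h1 : ∀ f : (∀ i : Fin 0, X i) → ℝ, ∑ x, f x = f default := by
      intro f
      rw [Fintype.sum_unique]
    have h2 : ∀ f : (∀ i : Fin 0, Y i) → ℝ, ∑ x, f x = f default := by
      intro f
      rw [Fintype.sum_unique]
    rw [h1, h2, h1, h2, Real.sqrt_sq_eq_abs, Real.sqrt_sq_eq_abs, abs_mul]
  | succ t ih =>
    have ih' := ih (fun i => X i.succ) (fun i => Y i.succ) (fun i => k i.succ) (fun i => B i.succ)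
      (fun i => hB i.succ) (fun i => hk i.succ)
    have hB' : 0 ≤ ∏ i : Fin t, B i.succ := Finset.prod_nonneg fun i _ => hB i.succ
    have h2 := tensor_two (X₁ := X 0) (Y₁ := Y 0) (X₂ := ∀ i : Fin t, X i.succ)
      (Y₂ := ∀ i : Fin t, Y i.succ) (k 0)
      (fun (x : ∀ i : Fin t, X i.succ) (y : ∀ i : Fin t, Y i.succ) =>
      ∏ i : Fin t, k i.succ (x i) (y i)) (B 0) (∏ i : Fin t, B i.succ) (hB 0) hB' (hk 0) ih'
      (fun x => u (Fin.consEquiv X x)) (fun y => v (Fin.consEquiv Y y))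
    have e1 : ∀ f : (∀ i, X i) → ℝ, ∑ x, f x = ∑ x, f (Fin.consEquiv X x) :=
      fun f => (Equiv.sum_comp (Fin.consEquiv X) f).symm
    have e2 : ∀ f : (∀ i, Y i) → ℝ, ∑ y, f y = ∑ y, f (Fin.consEquiv Y y) :=
      fun f => (Equiv.sum_comp (Fin.consEquiv Y) f).symm
    rw [Fin.prod_univ_succ, e1 (fun x => u x ^ 2), e2 (fun y => v y ^ 2),
      e1 (fun x => ∑ y, u x * v y * ∏ i, k i (x i) (y i))]
    have e3 : ∀ x, ∑ y, u (Fin.consEquiv X x) * v y * ∏ i, k i (Fin.consEquiv X x i) (y i) =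
        ∑ y, u (Fin.consEquiv X x) * v (Fin.consEquiv Y y) *
          (k 0 x.1 y.1 * ∏ i : Fin t, k i.succ (x.2 i) (y.2 i)) := by
      intro x
      rw [e2]
      refine Finset.sum_congr rfl fun y _ => ?_
      rw [Fin.prod_univ_succ]
      rfl
    simp_rw [e3]
    exact h2

end Pool.Agent.Lib.MP_6179b0_nt
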