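import Mathlib
import Pool.Agent.Lib.MP_6179b0_nt.Defs
import Pool.Agent.Lib.MP_6179b0_nt.Oper
import Pool.Agent.Lib.MP_6179b0_nt.Tensor

set_option autoImplicit false

namespace Pool.Agent.Lib.MP_6179b0_nt

open Finset

/-- the reduction of an integer modulo `p` as a unit -/
private noncomputable def bilin_proj {t : ℕ} (ℓ : Fin t → ℕ) [∀ i, Fact (ℓ i).Prime] (n : ℤ) :
    ∀ i, (ZMod (ℓ i))ˣ := by
  classical
  exact fun i => if h : (n : ZMod (ℓ i)) ≠ 0 then Units.mk0 _ h else 1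

private theorem bilin_proj_val {t : ℕ} (ℓ : Fin t → ℕ) [∀ i, Fact (ℓ i).Prime] (n : ℤ) (i : Fin t)
    (h : ¬ (ℓ i : ℤ) ∣ n) : ((bilin_proj ℓ n i : (ZMod (ℓ i))ˣ) : ZMod (ℓ i)) = (n : ZMod (ℓ i)) := by
  have h1 : (n : ZMod (ℓ i)) ≠ 0 := fun h0 => h ((ZMod.intCast_zmod_eq_zero_iff_dvd n (ℓ i)).1 h0)
  unfold bilin_proj
  rw [dif_pos h1]
  rfl

/-- the sum of the squares of the fibre sizes -/
private theorem bilin_fib {X : Type} [Fintype X] [DecidableEq X] (D : Finset ℤ) (f : ℤ → X)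
    (P : ℤ × ℤ → Prop) [DecidablePred P] (hP : ∀ n ∈ D, ∀ m ∈ D, f n = f m → P (n, m)) :
    ∑ x, (∑ n ∈ D, if f n = x then (1 : ℝ) else 0) ^ 2 ≤ (((D ×ˢ D).filter P).card : ℝ) := by
  have h1 : ∑ x, (∑ n ∈ D, if f n = x then (1 : ℝ) else 0) ^ 2 =
      ∑ n ∈ D, ∑ m ∈ D, if f n = f m then (1 : ℝ) else 0 := by
    have h2 : ∀ x, (∑ n ∈ D, if f n = x then (1 : ℝ) else 0) ^ 2 =
        ∑ n ∈ D, ∑ m ∈ D, (if f n = x then (1 : ℝ) else 0) * (if f m = x then (1 : ℝ) else 0) := by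
      intro x
      rw [sq, sum_mul_sum]
    rw [sum_congr rfl fun x _ => h2 x, sum_comm]
    refine sum_congr rfl fun n _ => ?_
    rw [sum_comm]
    refine sum_congr rfl fun m _ => ?_
    rw [sum_eq_single (f n)]
    · rw [if_pos rfl, one_mul]
      by_cases h : f n = f m
      · rw [if_pos h, if_pos h.symm]
      · rw [if_neg h, if_neg fun h' => h h'.symm]
    · intro x _ hx
      rw [if_neg fun h => hx h.symm, zero_mul]
    · intro h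
      exact absurd (mem_univ _) h
  rw [h1, ← sum_product', ← sum_filter, sum_const, nsmul_eq_mul, mul_one]
  have h3 : (D ×ˢ D).filter (fun z => f z.1 = f z.2) ⊆ (D ×ˢ D).filter P := by
    intro z hz
    rw [mem_filter, mem_product] at hz
    rw [mem_filter, mem_product]
    exact ⟨hz.1, hP z.1 hz.1.1 z.2 hz.1.2 hz.2⟩
  exact_mod_cast card_le_card h3

theorem bilin {C κ : ℝ} (h : Bnd C κ) (hC : 0 ≤ C) (a b : ℤ) {t : ℕ} (ℓ : Fin t → ℕ)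
    (hp : ∀ i, (ℓ i).Prime) (h2 : ∀ i, ℓ i ≠ 2) (hb : ∀ i, ¬ (ℓ i : ℤ) ∣ b)
    (hd : ∀ i, ¬ (ℓ i : ℤ) ∣ a ^ 2 - 4 * b)
    (D₁ D₂ : Finset ℤ) (h₁ : ∀ n ∈ D₁, n ∣ b) (h₂ : ∀ n ∈ D₂, n ∣ b)
    (hD : ∀ n₁ ∈ D₁, ∀ n₂ ∈ D₂, n₁ * n₂ ∣ b) :
    |∑ n₁ ∈ D₁, ∑ n₂ ∈ D₂, ∏ i, (jacobiSym (n₁ * n₂ + b / (n₁ * n₂) + a) (ℓ i) : ℝ)| ≤
      (∏ i, (C * (ℓ i : ℝ) ^ κ)) *
        √(((D₁ ×ˢ D₁).filter (fun z => ∀ i, (ℓ i : ℤ) ∣ z.1 - z.2)).card : ℝ) *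
        √(((D₂ ×ˢ D₂).filter (fun z => ∀ i, (ℓ i : ℤ) ∣ z.1 - z.2)).card : ℝ) := by
  classical
  have hF : ∀ i, Fact (ℓ i).Prime := fun i => ⟨hp i⟩
  -- the kernels
  let g : ∀ i, (ZMod (ℓ i))ˣ → ℝ := fun i z =>
    ((quadraticChar (ZMod (ℓ i)) ((z : ZMod (ℓ i)) + (b : ZMod (ℓ i)) *
      ((z⁻¹ : (ZMod (ℓ i))ˣ) : ZMod (ℓ i)) + (a : ZMod (ℓ i))) : ℤ) : ℝ)
  let k : ∀ i, (ZMod (ℓ i))ˣ → (ZMod (ℓ i))ˣ → ℝ := fun i x y => g i (x * y)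
  have hB0 : ∀ i, 0 ≤ C * (ℓ i : ℝ) ^ κ := fun i =>
    mul_nonneg hC (Real.rpow_nonneg (Nat.cast_nonneg _) _)
  have hk : ∀ i (u : (ZMod (ℓ i))ˣ → ℝ) (v : (ZMod (ℓ i))ˣ → ℝ),
      |∑ x, ∑ y, u x * v y * k i x y| ≤ C * (ℓ i : ℝ) ^ κ * √(∑ x, u x ^ 2) * √(∑ y, v y ^ 2) := by
    intro i u v
    refine oper (ℓ i) (g i) _ (fun ψ => ?_) u v
    have hb0 : (b : ZMod (ℓ i)) ≠ 0 := fun h0 =>
      hb i ((ZMod.intCast_zmod_eq_zero_iff_dvd b (ℓ i)).1 h0)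
    have hd0 : (a : ZMod (ℓ i)) ^ 2 ≠ 4 * (b : ZMod (ℓ i)) := by
      intro h0
      apply hd i
      rw [← ZMod.intCast_zmod_eq_zero_iff_dvd]
      push_cast
      rw [h0, sub_self]
    have h3 := h (ℓ i) (h2 i) a b hb0 hd0 ψ
    refine le_trans (le_of_eq ?_) h3
    simp only [g]
    push_cast
    rfl
  -- the vectors
  set u : (∀ i, (ZMod (ℓ i))ˣ) → ℝ := fun x => ∑ n ∈ D₁, if bilin_proj ℓ n = x then (1 : ℝ) else 0
    with hu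
  set v : (∀ i, (ZMod (ℓ i))ˣ) → ℝ := fun y => ∑ n ∈ D₂, if bilin_proj ℓ n = y then (1 : ℝ) else 0
    with hv
  have hT := tensor (fun i => (ZMod (ℓ i))ˣ) (fun i => (ZMod (ℓ i))ˣ) k
    (fun i => C * (ℓ i : ℝ) ^ κ) hB0 hk u v
  -- non-divisibility
  have hnd : ∀ (n : ℤ), n ∣ b → ∀ i, ¬ (ℓ i : ℤ) ∣ n := fun n hn i hdiv => hb i (hdiv.trans hn)
  have hcong : ∀ n m : ℤ, n ∣ b → m ∣ b → bilin_proj ℓ n = bilin_proj ℓ m →
      ∀ i, (ℓ i : ℤ) ∣ n - m := by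
    intro n m hn hm hnm i
    have h3 : ((bilin_proj ℓ n i : (ZMod (ℓ i))ˣ) : ZMod (ℓ i)) =
        ((bilin_proj ℓ m i : (ZMod (ℓ i))ˣ) : ZMod (ℓ i)) := by rw [hnm]
    rw [bilin_proj_val ℓ n i (hnd n hn i), bilin_proj_val ℓ m i (hnd m hm i)] at h3
    rw [← ZMod.intCast_zmod_eq_zero_iff_dvd]
    push_cast
    rw [h3, sub_self]
  have hu2 : ∑ x, u x ^ 2 ≤
      (((D₁ ×ˢ D₁).filter (fun z => ∀ i, (ℓ i : ℤ) ∣ z.1 - z.2)).card : ℝ) :=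
    bilin_fib D₁ (bilin_proj ℓ) _ fun n hn m hm hnm => hcong n m (h₁ n hn) (h₁ m hm) hnm
  have hv2 : ∑ x, v x ^ 2 ≤
      (((D₂ ×ˢ D₂).filter (fun z => ∀ i, (ℓ i : ℤ) ∣ z.1 - z.2)).card : ℝ) :=
    bilin_fib D₂ (bilin_proj ℓ) _ fun n hn m hm hnm => hcong n m (h₂ n hn) (h₂ m hm) hnm
  -- the main sum
  have hsum : ∑ x, ∑ y, u x * v y * ∏ i, k i (x i) (y i) =
      ∑ n₁ ∈ D₁, ∑ n₂ ∈ D₂, ∏ i, (jacobiSym (n₁ * n₂ + b / (n₁ * n₂) + a) (ℓ i) : ℝ) := by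
    have e1 : ∀ x y, u x * v y * ∏ i, k i (x i) (y i) = ∑ n₁ ∈ D₁, ∑ n₂ ∈ D₂,
        (if bilin_proj ℓ n₁ = x then (1 : ℝ) else 0) * (if bilin_proj ℓ n₂ = y then (1 : ℝ) else 0) *
          ∏ i, k i (x i) (y i) := by
      intro x y
      simp only [hu, hv]
      rw [sum_mul_sum, sum_mul]
      refine sum_congr rfl fun n _ => ?_
      rw [sum_mul]
    have e2 : ∑ x, ∑ y, u x * v y * ∏ i, k i (x i) (y i) = ∑ n₁ ∈ D₁, ∑ n₂ ∈ D₂,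
        ∑ x, ∑ y, (if bilin_proj ℓ n₁ = x then (1 : ℝ) else 0) *
          (if bilin_proj ℓ n₂ = y then (1 : ℝ) else 0) * ∏ i, k i (x i) (y i) := by
      rw [sum_congr rfl fun x _ => sum_congr rfl fun y _ => e1 x y]
      rw [sum_congr rfl fun x _ => sum_comm, sum_comm]
      refine sum_congr rfl fun n₁ _ => ?_
      rw [sum_congr rfl fun x _ => sum_comm, sum_comm]
    rw [e2]
    refine sum_congr rfl fun n₁ hn₁ => sum_congr rfl fun n₂ hn₂ => ?_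
    rw [sum_eq_single (bilin_proj ℓ n₁)]
    · rw [sum_eq_single (bilin_proj ℓ n₂)]
      · rw [if_pos rfl, if_pos rfl, one_mul, one_mul]
        refine prod_congr rfl fun i _ => ?_
        simp only [k, g]
        have hℓ1 := hnd n₁ (h₁ n₁ hn₁) i
        have hℓ2 := hnd n₂ (h₂ n₂ hn₂) i
        have v1 := bilin_proj_val ℓ n₁ i hℓ1
        have v2 := bilin_proj_val ℓ n₂ i hℓ2
        have hn1 : (n₁ : ZMod (ℓ i)) ≠ 0 := fun h0 =>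
          hℓ1 ((ZMod.intCast_zmod_eq_zero_iff_dvd n₁ (ℓ i)).1 h0)
        have hn2 : (n₂ : ZMod (ℓ i)) ≠ 0 := fun h0 =>
          hℓ2 ((ZMod.intCast_zmod_eq_zero_iff_dvd n₂ (ℓ i)).1 h0)
        have h3 : jacobiSym (n₁ * n₂ + b / (n₁ * n₂) + a) (ℓ i) =
            quadraticChar (ZMod (ℓ i)) (((n₁ * n₂ + b / (n₁ * n₂) + a : ℤ)) : ZMod (ℓ i)) := by
          rw [← jacobiSym.legendreSym.to_jacobiSym]
          rfl
        rw [h3]
        congr 2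
        obtain ⟨q, hq⟩ := hD n₁ hn₁ n₂ hn₂
        have hne : n₁ * n₂ ≠ 0 := by
          intro h0
          rw [h0, zero_mul] at hq
          exact hb i (by rw [hq]; exact dvd_zero _)
        have h4 : b / (n₁ * n₂) = q := by
          rw [hq, Int.mul_ediv_cancel_left _ hne]
        rw [h4]
        have h5 : (b : ZMod (ℓ i)) = n₁ * n₂ * q := by
          rw [hq]
          push_cast
          rfl
        rw [Units.val_inv_eq_inv_val, Units.val_mul, v1, v2, h5]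
        push_cast
        field_simp
      · intro y _ hy
        have hy' : ¬ bilin_proj ℓ n₂ = y := fun h' => hy h'.symm
        rw [if_neg hy', mul_zero, zero_mul]
      · intro h'
        exact absurd (mem_univ _) h'
    · intro x _ hx
      apply sum_eq_zero
      intro y _
      rw [if_neg fun h' => hx h'.symm, zero_mul, zero_mul]
    · intro h'
      exact absurd (mem_univ _) h'
  rw [hsum] at hT
  refine hT.trans ?_
  have hprod : 0 ≤ ∏ i, (C * (ℓ i : ℝ) ^ κ) := prod_nonneg fun i _ => hB0 i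
  have s1 := Real.sqrt_le_sqrt hu2
  have s2 := Real.sqrt_le_sqrt hv2
  exact mul_le_mul (mul_le_mul_of_nonneg_left s1 hprod) s2 (Real.sqrt_nonneg _)
    (mul_nonneg hprod (Real.sqrt_nonneg _))

end Pool.Agent.Lib.MP_6179b0_nt
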