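import Mathlib

/-!
# Correlation of quadratic characters of the values of a polynomial of degree at most two
-/

set_option autoImplicit false

namespace Pool.Agent.Lib.MP_6179b0_nt

open Finset

variable {F : Type} [Field F] [Fintype F] [DecidableEq F]

/-- value of the quadratic form/polynomial -/
def ev (Q : F × F × F) (x : F) : F := Q.1 * x ^ 2 + Q.2.1 * x + Q.2.2

/-- correlation of four values -/
noncomputable def cor (x₁ x₂ x₃ x₄ : F) : ℤ :=
  ∑ Q : F × F × F, quadraticChar F (ev Q x₁) * quadraticChar F (ev Q x₂) *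
    quadraticChar F (ev Q x₃) * quadraticChar F (ev Q x₄)

/-- the three values determine the polynomial -/
def cor_map (x y z : F) (Q : F × F × F) : F × F × F := (ev Q x, ev Q y, ev Q z)

theorem cor_map_injective (x y z : F) (hxy : x ≠ y) (hxz : x ≠ z) (hyz : y ≠ z) :
    Function.Injective (cor_map x y z) := by
  rintro ⟨a, b, c⟩ ⟨a', b', c'⟩ h
  simp only [cor_map, ev, Prod.mk.injEq] at h
  obtain ⟨h1, h2, h3⟩ := h
  have e1 : (x - y) * ((a - a') * (x + y) + (b - b')) = 0 := by linear_combination h1 - h2
  have e2 : (x - z) * ((a - a') * (x + z) + (b - b')) = 0 := by linear_combination h1 - h3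
  have f1 : (a - a') * (x + y) + (b - b') = 0 := (mul_eq_zero.1 e1).resolve_left (sub_ne_zero.2 hxy)
  have f2 : (a - a') * (x + z) + (b - b') = 0 := (mul_eq_zero.1 e2).resolve_left (sub_ne_zero.2 hxz)
  have e3 : (y - z) * (a - a') = 0 := by linear_combination f1 - f2
  have f3 : a - a' = 0 := (mul_eq_zero.1 e3).resolve_left (sub_ne_zero.2 hyz)
  have f4 : b - b' = 0 := by rw [f3] at f1; linear_combination f1
  have ha : a = a' := sub_eq_zero.1 f3
  have hb : b = b' := sub_eq_zero.1 f4
  subst ha; subst hb
  have hc : c = c' := by linear_combination h1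
  subst hc
  rfl

theorem cor_map_bijective (x y z : F) (hxy : x ≠ y) (hxz : x ≠ z) (hyz : y ≠ z) :
    Function.Bijective (cor_map x y z) :=
  (Finite.injective_iff_bijective).1 (cor_map_injective x y z hxy hxz hyz)

theorem cor_sum_eq (x y z : F) (hxy : x ≠ y) (hxz : x ≠ z) (hyz : y ≠ z) (f : F → F → F → ℤ) :
    ∑ Q : F × F × F, f (ev Q x) (ev Q y) (ev Q z) = ∑ u, ∑ v, ∑ w, f u v w := by
  have h := (cor_map_bijective x y z hxy hxz hyz).sum_comp (fun R : F × F × F => f R.1 R.2.1 R.2.2)
  have h1 : ∑ Q : F × F × F, f (ev Q x) (ev Q y) (ev Q z) =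
      ∑ R : F × F × F, f R.1 R.2.1 R.2.2 := by
    rw [← h]; rfl
  rw [h1, Fintype.sum_prod_type]
  refine Finset.sum_congr rfl fun u _ => ?_
  rw [Fintype.sum_prod_type]

theorem cor_three (hF : ringChar F ≠ 2) (x y z : F) (hxy : x ≠ y) (hxz : x ≠ z) (hyz : y ≠ z) :
    cor x x y z = 0 := by
  unfold cor
  rw [cor_sum_eq x y z hxy hxz hyz (fun u v w => quadraticChar F u * quadraticChar F u *
    quadraticChar F v * quadraticChar F w)]
  refine Finset.sum_eq_zero fun u _ => Finset.sum_eq_zero fun v _ => ?_
  rw [← Finset.mul_sum, quadraticChar_sum_zero hF, mul_zero]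

/-- the inner sum -/
theorem cor_inner (hF : ringChar F ≠ 2) (C c : F) (hC : C ≠ 0) :
    ∑ w : F, quadraticChar F w * quadraticChar F (c + C * w) =
      if c = 0 then ((Fintype.card F : ℤ) - 1) * quadraticChar F C else - quadraticChar F C := by
  split_ifs with h
  · subst h
    have h1 : ∀ w : F, quadraticChar F w * quadraticChar F (0 + C * w) =
        if w = 0 then 0 else quadraticChar F C := by
      intro w
      split_ifs with hw
      · subst hw; simp
      · rw [zero_add, map_mul]
        have : quadraticChar F w * quadraticChar F w = 1 := by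
          have := quadraticChar_sq_one hw
          rwa [pow_two] at this
        linear_combination (quadraticChar F C) * this
    simp_rw [h1]
    rw [Finset.sum_ite, Finset.sum_const_zero, zero_add, Finset.sum_const, nsmul_eq_mul]
    congr 1
    have h2 : (Finset.univ.filter (fun w : F => ¬ w = 0)).card = Fintype.card F - 1 := by
      rw [Finset.filter_ne' Finset.univ (0 : F), Finset.card_erase_of_mem (Finset.mem_univ _),
        Finset.card_univ]
    rw [h2, Nat.cast_sub Fintype.card_pos]
    simp
  · have h1 : ∀ w : F, quadraticChar F w * quadraticChar F (c + C * w) =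
        if w = 0 then 0 else quadraticChar F (C + c * w⁻¹) := by
      intro w
      split_ifs with hw
      · subst hw; simp
      · have e1 : c + C * w = w * (C + c * w⁻¹) := by field_simp; ring
        rw [e1, map_mul]
        have : quadraticChar F w * quadraticChar F w = 1 := by
          have := quadraticChar_sq_one hw
          rwa [pow_two] at this
        linear_combination (quadraticChar F (C + c * w⁻¹)) * this
    simp_rw [h1]
    -- substitute t = C + c / w
    have h2 : ∑ w : F, (if w = 0 then 0 else quadraticChar F (C + c * w⁻¹)) =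
        ∑ w : F, quadraticChar F (C + c * w⁻¹) - quadraticChar F C := by
      have h3 : ∀ w : F, (if w = 0 then (0 : ℤ) else quadraticChar F (C + c * w⁻¹)) =
          quadraticChar F (C + c * w⁻¹) - if w = 0 then quadraticChar F C else 0 := by
        intro w
        split_ifs with hw
        · subst hw; simp
        · simp
      simp_rw [h3]
      rw [Finset.sum_sub_distrib]
      simp
    rw [h2]
    have h4 : ∑ w : F, quadraticChar F (C + c * w⁻¹) = ∑ t : F, quadraticChar F t := by
      have hb : Function.Bijective (fun w : F => C + c * w⁻¹) := by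
        rw [← Finite.injective_iff_bijective]
        intro w w' hww
        have h5 : c * w⁻¹ = c * w'⁻¹ := by
          have : C + c * w⁻¹ = C + c * w'⁻¹ := hww
          exact add_left_cancel this
        exact inv_injective (mul_left_cancel₀ h h5)
      exact hb.sum_comp (fun t => quadraticChar F t)
    rw [h4, quadraticChar_sum_zero hF]
    ring

theorem cor_distinct (hF : ringChar F ≠ 2) (x₁ x₂ x₃ x₄ : F) (h12 : x₁ ≠ x₂) (h13 : x₁ ≠ x₃)
    (h14 : x₁ ≠ x₄) (h23 : x₂ ≠ x₃) (h24 : x₂ ≠ x₄) (h34 : x₃ ≠ x₄) :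
    cor x₁ x₂ x₃ x₄ = (Fintype.card F : ℤ) * ((Fintype.card F : ℤ) - 1) := by
  have g12 := sub_ne_zero.2 h12
  have g13 := sub_ne_zero.2 h13
  have g14 := sub_ne_zero.2 h14
  have g23 := sub_ne_zero.2 h23
  have g24 := sub_ne_zero.2 h24
  have g34 := sub_ne_zero.2 h34
  have g21 := sub_ne_zero.2 h12.symm
  have g31 := sub_ne_zero.2 h13.symm
  have g41 := sub_ne_zero.2 h14.symm
  have g32 := sub_ne_zero.2 h23.symm
  have g42 := sub_ne_zero.2 h24.symm
  have g43 := sub_ne_zero.2 h34.symm
  obtain ⟨A, hA⟩ : ∃ A : F, A = (x₄ - x₂) * (x₄ - x₃) / ((x₁ - x₂) * (x₁ - x₃)) := ⟨_, rfl⟩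
  obtain ⟨B, hB⟩ : ∃ B : F, B = (x₄ - x₁) * (x₄ - x₃) / ((x₂ - x₁) * (x₂ - x₃)) := ⟨_, rfl⟩
  obtain ⟨C, hC⟩ : ∃ C : F, C = (x₄ - x₁) * (x₄ - x₂) / ((x₃ - x₁) * (x₃ - x₂)) := ⟨_, rfl⟩
  have hA0 : A ≠ 0 := by rw [hA]; exact div_ne_zero (mul_ne_zero g42 g43) (mul_ne_zero g12 g13)
  have hB0 : B ≠ 0 := by rw [hB]; exact div_ne_zero (mul_ne_zero g41 g43) (mul_ne_zero g21 g23)
  have hC0 : C ≠ 0 := by rw [hC]; exact div_ne_zero (mul_ne_zero g41 g42) (mul_ne_zero g31 g32)
  have hev : ∀ Q : F × F × F, ev Q x₄ = A * ev Q x₁ + B * ev Q x₂ + C * ev Q x₃ := by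
    rintro ⟨a, b, c⟩
    simp only [ev]
    rw [hA, hB, hC]
    field_simp
    ring
  have hsq : -(A * B) * C =
      ((x₄ - x₁) * (x₄ - x₂) * (x₄ - x₃) / ((x₁ - x₂) * (x₁ - x₃) * (x₂ - x₃))) ^ 2 := by
    rw [hA, hB, hC]
    field_simp
    ring
  have hchi : quadraticChar F C * quadraticChar F (-(A * B)) = 1 := by
    rw [mul_comm, ← map_mul, hsq]
    refine quadraticChar_sq_one' ?_
    exact div_ne_zero (mul_ne_zero (mul_ne_zero g41 g42) g43) (mul_ne_zero (mul_ne_zero g12 g13) g23)
  unfold cor
  simp_rw [hev]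
  rw [cor_sum_eq x₁ x₂ x₃ h12 h13 h23 (fun u v w => quadraticChar F u * quadraticChar F v *
    quadraticChar F w * quadraticChar F (A * u + B * v + C * w))]
  have e1 : ∀ u v : F, ∑ w : F, quadraticChar F u * quadraticChar F v *
      quadraticChar F w * quadraticChar F (A * u + B * v + C * w) =
      quadraticChar F C * ((Fintype.card F : ℤ) * (if v = -(A * u) / B then
        quadraticChar F u * quadraticChar F v else 0) - quadraticChar F u * quadraticChar F v) := by
    intro u v
    have e2 : ∀ w : F, quadraticChar F u * quadraticChar F v *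
      quadraticChar F w * quadraticChar F (A * u + B * v + C * w) =
      (quadraticChar F u * quadraticChar F v) *
        (quadraticChar F w * quadraticChar F ((A * u + B * v) + C * w)) := by
      intro w; ring
    simp_rw [e2]
    rw [← Finset.mul_sum, cor_inner hF C (A * u + B * v) hC0]
    have e3 : A * u + B * v = 0 ↔ v = -(A * u) / B := by
      rw [eq_div_iff hB0]
      constructor
      · intro h; linear_combination h
      · intro h; linear_combination h
    by_cases h : v = -(A * u) / B
    · rw [if_pos (e3.2 h), if_pos h]; ring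
    · rw [if_neg (fun h' => h (e3.1 h')), if_neg h]; ring
  simp_rw [e1]
  simp_rw [← Finset.mul_sum, Finset.sum_sub_distrib, ← Finset.mul_sum]
  rw [quadraticChar_sum_zero hF]
  have e4 : ∀ u : F, ∑ v : F, (if v = -(A * u) / B then
        quadraticChar F u * quadraticChar F v else 0) =
        if u = 0 then 0 else quadraticChar F (-(A * B)) := by
    intro u
    rw [Finset.sum_ite_eq' Finset.univ (-(A * u) / B), if_pos (Finset.mem_univ _)]
    split_ifs with hu
    · subst hu; simp
    · rw [← map_mul]
      have e5 : u * (-(A * u) / B) = -(A * B) * (u / B) ^ 2 := by field_simp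
      rw [e5, map_mul, quadraticChar_sq_one' (div_ne_zero hu hB0), mul_one]
  simp_rw [e4]
  have e6 : ∑ u : F, (if u = 0 then (0 : ℤ) else quadraticChar F (-(A * B))) =
      ((Fintype.card F : ℤ) - 1) * quadraticChar F (-(A * B)) := by
    rw [Finset.sum_ite, Finset.sum_const_zero, zero_add, Finset.sum_const, nsmul_eq_mul]
    congr 1
    have h2 : (Finset.univ.filter (fun w : F => ¬ w = 0)).card = Fintype.card F - 1 := by
      rw [Finset.filter_ne' Finset.univ (0 : F), Finset.card_erase_of_mem (Finset.mem_univ _),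
        Finset.card_univ]
    rw [h2, Nat.cast_sub Fintype.card_pos]
    simp
  simp only [mul_zero, Finset.sum_const_zero, sub_zero]
  rw [e6]
  linear_combination ((Fintype.card F : ℤ) * ((Fintype.card F : ℤ) - 1)) * hchi

end Pool.Agent.Lib.MP_6179b0_nt
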