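import Mathlib
import Pool.Agent.Lib.MP_6179b0_nt.Cor

set_option autoImplicit false

namespace Pool.Agent.Lib.MP_6179b0_nt

open Finset

variable {F : Type} [Field F] [Fintype F] [DecidableEq F]

theorem fourth_sum_units (f : F → ℂ) (h0 : f 0 = 0) : ∑ x : Fˣ, f (x : F) = ∑ x : F, f x := by
  have h1 : ∑ x : F, f x = ∑ x : {x : F // x ≠ 0}, f x := by
    rw [← Finset.sum_subtype (Finset.univ.filter fun x : F => x ≠ 0) (by simp) f]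
    rw [Finset.sum_filter]
    refine Finset.sum_congr rfl fun x _ => ?_
    split_ifs with h
    · rfl
    · push Not at h
      rw [h, h0]
  rw [h1, ← (unitsEquivNeZero (G₀ := F)).sum_comp]
  rfl

/-- indicator of equality -/
noncomputable def fourth_d {α : Type} [DecidableEq α] (x y : α) : ℝ := if x = y then 1 else 0

theorem fourth_d_self {α : Type} [DecidableEq α] (x : α) : fourth_d x x = 1 := by
  simp [fourth_d]

theorem fourth_d_nonneg {α : Type} [DecidableEq α] (x y : α) : 0 ≤ fourth_d x y := by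
  unfold fourth_d
  split_ifs <;> norm_num

/-- the error bound -/
noncomputable def fourth_e {α : Type} [DecidableEq α] (q : ℝ) (x₁ x₂ x₃ x₄ : α) : ℝ :=
  q ^ 2 * (fourth_d x₁ x₂ + fourth_d x₁ x₃ + fourth_d x₁ x₄ + fourth_d x₂ x₃ + fourth_d x₂ x₄ +
    fourth_d x₃ x₄) +
  2 * q ^ 3 * (fourth_d x₁ x₂ * fourth_d x₂ x₃ + fourth_d x₁ x₂ * fourth_d x₂ x₄ +
    fourth_d x₁ x₃ * fourth_d x₃ x₄ + fourth_d x₂ x₃ * fourth_d x₃ x₄ +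
    fourth_d x₁ x₂ * fourth_d x₃ x₄ + fourth_d x₁ x₃ * fourth_d x₂ x₄ +
    fourth_d x₂ x₃ * fourth_d x₁ x₄)

theorem fourth_e_sum {α : Type} [DecidableEq α] [Fintype α] (q : ℝ)
    (hn : (Fintype.card α : ℝ) ≤ q) :
    ∑ x₁ : α, ∑ x₂ : α, ∑ x₃ : α, ∑ x₄ : α, fourth_e q x₁ x₂ x₃ x₄ ≤ 20 * q ^ 5 := by
  set n : ℝ := (Fintype.card α : ℝ) with hnd
  have hn0 : 0 ≤ n := by positivity
  have hq0 : 0 ≤ q := hn0.trans hn
  have h1 : ∑ x₁ : α, ∑ x₂ : α, ∑ x₃ : α, ∑ x₄ : α, fourth_e q x₁ x₂ x₃ x₄ =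
      q ^ 2 * (6 * n ^ 3) + 2 * q ^ 3 * (7 * n ^ 2) := by
    simp only [fourth_e, fourth_d, Finset.sum_add_distrib, ← Finset.mul_sum, mul_ite, mul_one,
      mul_zero, Finset.sum_ite_eq, Finset.mem_univ, if_true, Finset.sum_const,
      Finset.card_univ, nsmul_eq_mul, ← hnd]
    ring
  rw [h1]
  have h2 : n ^ 3 ≤ q ^ 3 := pow_le_pow_left₀ hn0 hn 3
  have h3 : n ^ 2 ≤ q ^ 2 := pow_le_pow_left₀ hn0 hn 2
  calc q ^ 2 * (6 * n ^ 3) + 2 * q ^ 3 * (7 * n ^ 2)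
      ≤ q ^ 2 * (6 * q ^ 3) + 2 * q ^ 3 * (7 * q ^ 2) := by gcongr
    _ = 20 * q ^ 5 := by ring

theorem fourth_cor_abs (x₁ x₂ x₃ x₄ : F) :
    |((cor x₁ x₂ x₃ x₄ : ℤ) : ℝ)| ≤ (Fintype.card F : ℝ) ^ 3 := by
  unfold cor
  push_cast
  refine (Finset.abs_sum_le_sum_abs _ _).trans ?_
  have hq : ∀ a : F, |((quadraticChar F a : ℤ) : ℝ)| ≤ 1 := by
    intro a
    by_cases ha : a = 0
    · simp [ha]
    · rcases quadraticChar_dichotomy ha with h | h <;> simp [h]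
  calc ∑ Q : F × F × F, |((quadraticChar F (ev Q x₁) : ℤ) : ℝ) * (quadraticChar F (ev Q x₂) : ℤ) *
        (quadraticChar F (ev Q x₃) : ℤ) * (quadraticChar F (ev Q x₄) : ℤ)|
      ≤ ∑ _Q : F × F × F, (1 : ℝ) := by
        refine Finset.sum_le_sum fun Q _ => ?_
        rw [abs_mul, abs_mul, abs_mul]
        calc _ ≤ (1 : ℝ) * 1 * 1 * 1 := by
              gcongr <;> exact hq _
          _ = 1 := by norm_num
    _ = _ := by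
        simp [Fintype.card_prod]
        ring

theorem fourth_bound (hF : ringChar F ≠ 2) (x₁ x₂ x₃ x₄ : Fˣ) :
    |((cor (x₁ : F) x₂ x₃ x₄ : ℤ) : ℝ) - (Fintype.card F : ℝ) * ((Fintype.card F : ℝ) - 1)| ≤
      fourth_e (Fintype.card F : ℝ) x₁ x₂ x₃ x₄ := by
  have hq1 : (1 : ℝ) ≤ Fintype.card F := by exact_mod_cast Fintype.card_pos
  set q : ℝ := (Fintype.card F : ℝ) with hq
  have hne : ∀ {a b : Fˣ}, a ≠ b → (a : F) ≠ (b : F) := fun h h' => h (Units.ext h')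
  have hnn := fun a b : Fˣ => fourth_d_nonneg a b
  have hnm := fun a b c d : Fˣ => mul_nonneg (fourth_d_nonneg a b) (fourth_d_nonneg c d)
  have hq2 : 0 ≤ q ^ 2 := by positivity
  have hq3 : 0 ≤ 2 * q ^ 3 := by positivity
  -- crude
  have crude : ∀ t : ℝ, 1 ≤ t → ∀ t' : ℝ, 0 ≤ t' →
      |((cor (x₁ : F) x₂ x₃ x₄ : ℤ) : ℝ) - q * (q - 1)| ≤ q ^ 2 * t' + 2 * q ^ 3 * t := by
    intro t ht t' ht'
    have h1 := fourth_cor_abs (x₁ : F) x₂ x₃ x₄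
    rw [← hq] at h1
    have h2 : |q * (q - 1)| ≤ q ^ 3 := by
      rw [abs_of_nonneg (by nlinarith)]
      nlinarith [mul_nonneg (sq_nonneg q) (sub_nonneg.2 hq1)]
    have h3 := abs_sub ((cor (x₁ : F) x₂ x₃ x₄ : ℤ) : ℝ) (q * (q - 1))
    have h4 : 2 * q ^ 3 ≤ 2 * q ^ 3 * t := le_mul_of_one_le_right hq3 ht
    have h5 : 0 ≤ q ^ 2 * t' := mul_nonneg hq2 ht'
    linarith
  have zero : (cor (x₁ : F) x₂ x₃ x₄ : ℤ) = 0 → ∀ t : ℝ, 1 ≤ t → ∀ t' : ℝ, 0 ≤ t' →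
      |((cor (x₁ : F) x₂ x₃ x₄ : ℤ) : ℝ) - q * (q - 1)| ≤ q ^ 2 * t + 2 * q ^ 3 * t' := by
    intro h0 t ht t' ht'
    rw [h0]
    have h2 : |((0 : ℤ) : ℝ) - q * (q - 1)| ≤ q ^ 2 := by
      rw [Int.cast_zero, zero_sub, abs_neg, abs_of_nonneg (by nlinarith)]
      nlinarith
    have h4 : q ^ 2 ≤ q ^ 2 * t := le_mul_of_one_le_right hq2 ht
    have h5 : 0 ≤ 2 * q ^ 3 * t' := mul_nonneg hq3 ht'
    linarith
  unfold fourth_e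
  by_cases h12 : x₁ = x₂
  · subst h12
    by_cases h34 : x₃ = x₄
    · subst h34
      refine crude _ ?_ _ ?_
      · simp only [fourth_d_self]
        linarith [hnm x₁ x₁ x₁ x₃, hnm x₁ x₁ x₁ x₃, hnm x₁ x₃ x₁ x₃, hnn x₁ x₃, hnm x₁ x₃ x₁ x₃]
      · linarith [hnn x₁ x₁, hnn x₁ x₃, hnn x₃ x₃]
    by_cases h13 : x₁ = x₃
    · subst h13
      refine crude _ ?_ _ ?_
      · simp only [fourth_d_self]
        linarith [hnm x₁ x₄ x₁ x₄, hnn x₁ x₄]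
      · linarith [hnn x₁ x₁, hnn x₁ x₄]
    by_cases h14 : x₁ = x₄
    · subst h14
      refine crude _ ?_ _ ?_
      · simp only [fourth_d_self]
        linarith [hnm x₁ x₃ x₃ x₁, hnm x₁ x₃ x₁ x₁, hnn x₁ x₃, hnn x₃ x₁]
      · linarith [hnn x₁ x₁, hnn x₁ x₃, hnn x₃ x₁]
    refine zero ?_ _ ?_ _ ?_
    · exact cor_three hF _ _ _ (hne h13) (hne h14) (hne h34)
    · simp only [fourth_d_self]
      linarith [hnn x₁ x₃, hnn x₁ x₄, hnn x₃ x₄]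
    · linarith [hnm x₁ x₁ x₁ x₃, hnm x₁ x₁ x₁ x₄, hnm x₁ x₃ x₃ x₄, hnm x₁ x₁ x₃ x₄,
        hnm x₁ x₃ x₁ x₄, hnm x₁ x₄ x₁ x₃]
  by_cases h13 : x₁ = x₃
  · subst h13
    by_cases h24 : x₂ = x₄
    · subst h24
      refine crude _ ?_ _ ?_
      · simp only [fourth_d_self]
        linarith [hnm x₁ x₂ x₂ x₁, hnm x₁ x₂ x₁ x₂, hnm x₂ x₁ x₁ x₂, hnn x₁ x₂]
      · linarith [hnn x₁ x₂, hnn x₁ x₁, hnn x₂ x₁, hnn x₂ x₂]
    by_cases h14 : x₁ = x₄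
    · subst h14
      refine crude _ ?_ _ ?_
      · simp only [fourth_d_self]
        linarith [hnm x₁ x₂ x₂ x₁, hnn x₁ x₂, hnn x₂ x₁]
      · linarith [hnn x₁ x₂, hnn x₁ x₁, hnn x₂ x₁]
    refine zero ?_ _ ?_ _ ?_
    · have := cor_three hF (x₁ : F) x₂ x₄ (hne h12) (hne h14) (hne h24)
      rw [← this]
      unfold cor
      exact Finset.sum_congr rfl fun Q _ => by ring
    · simp only [fourth_d_self]
      linarith [hnn x₁ x₂, hnn x₁ x₄, hnn x₂ x₁, hnn x₂ x₄]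
    · linarith [hnm x₁ x₂ x₂ x₁, hnm x₁ x₂ x₂ x₄, hnm x₁ x₁ x₁ x₄, hnm x₂ x₁ x₁ x₄,
        hnm x₁ x₂ x₁ x₄, hnm x₁ x₁ x₂ x₄, hnm x₁ x₄ x₂ x₁]
  by_cases h14 : x₁ = x₄
  · subst h14
    by_cases h23 : x₂ = x₃
    · subst h23
      refine crude _ ?_ _ ?_
      · simp only [fourth_d_self]
        linarith [hnm x₁ x₂ x₂ x₁, hnn x₁ x₂, hnn x₂ x₁]
      · linarith [hnn x₁ x₂, hnn x₁ x₁, hnn x₂ x₁, hnn x₂ x₂]
    refine zero ?_ _ ?_ _ ?_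
    · have := cor_three hF (x₁ : F) x₂ x₃ (hne h12) (hne h13) (hne h23)
      rw [← this]
      unfold cor
      exact Finset.sum_congr rfl fun Q _ => by ring
    · simp only [fourth_d_self]
      linarith [hnn x₁ x₂, hnn x₁ x₃, hnn x₂ x₁, hnn x₂ x₃, hnn x₃ x₁]
    · linarith [hnm x₁ x₂ x₂ x₃, hnm x₁ x₂ x₂ x₁, hnm x₁ x₃ x₃ x₁, hnm x₂ x₃ x₃ x₁,
        hnm x₁ x₂ x₃ x₁, hnm x₁ x₃ x₂ x₁, hnm x₁ x₁ x₂ x₃]
  by_cases h23 : x₂ = x₃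
  · subst h23
    by_cases h24 : x₂ = x₄
    · subst h24
      refine crude _ ?_ _ ?_
      · simp only [fourth_d_self]
        linarith [hnm x₁ x₂ x₁ x₂, hnn x₁ x₂]
      · linarith [hnn x₁ x₂, hnn x₂ x₂]
    refine zero ?_ _ ?_ _ ?_
    · have := cor_three hF (x₂ : F) x₁ x₄ (hne (Ne.symm h12)) (hne h24) (hne h14)
      rw [← this]
      unfold cor
      exact Finset.sum_congr rfl fun Q _ => by ring
    · simp only [fourth_d_self]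
      linarith [hnn x₁ x₂, hnn x₁ x₄, hnn x₂ x₄]
    · linarith [hnm x₁ x₂ x₂ x₂, hnm x₁ x₂ x₂ x₄, hnm x₂ x₂ x₂ x₄, hnm x₁ x₄ x₂ x₂]
  by_cases h24 : x₂ = x₄
  · subst h24
    refine zero ?_ _ ?_ _ ?_
    · have := cor_three hF (x₂ : F) x₁ x₃ (hne (Ne.symm h12)) (hne h23) (hne h13)
      rw [← this]
      unfold cor
      exact Finset.sum_congr rfl fun Q _ => by ring
    · simp only [fourth_d_self]
      linarith [hnn x₁ x₂, hnn x₁ x₃, hnn x₂ x₃, hnn x₃ x₂]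
    · linarith [hnm x₁ x₂ x₂ x₃, hnm x₁ x₂ x₂ x₂, hnm x₁ x₃ x₃ x₂, hnm x₂ x₃ x₃ x₂,
        hnm x₁ x₂ x₃ x₂, hnm x₁ x₃ x₂ x₂, hnm x₁ x₂ x₂ x₃]
  by_cases h34 : x₃ = x₄
  · subst h34
    refine zero ?_ _ ?_ _ ?_
    · have := cor_three hF (x₃ : F) x₁ x₂ (hne (Ne.symm h13)) (hne (Ne.symm h23)) (hne h12)
      rw [← this]
      unfold cor
      exact Finset.sum_congr rfl fun Q _ => by ring
    · simp only [fourth_d_self]
      linarith [hnn x₁ x₂, hnn x₁ x₃, hnn x₂ x₃]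
    · linarith [hnm x₁ x₂ x₂ x₃, hnm x₁ x₃ x₃ x₃, hnm x₂ x₃ x₃ x₃, hnm x₁ x₂ x₃ x₃,
        hnm x₁ x₃ x₂ x₃]
  rw [cor_distinct hF _ _ _ _ (hne h12) (hne h13) (hne h14) (hne h23) (hne h24) (hne h34)]
  push_cast
  rw [sub_self, abs_zero]
  have := hnn x₁ x₂
  have := hnn x₁ x₃
  have := hnn x₁ x₄
  have := hnn x₂ x₃
  have := hnn x₂ x₄
  have := hnn x₃ x₄
  positivity

theorem fourth_norm (η : MulChar F ℂ) (x : Fˣ) : ‖η (x : F)‖ = 1 := by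
  have h : η (x : F) ^ (Fintype.card Fˣ) = 1 := by
    rw [← map_pow, ← Units.val_pow_eq_pow_val, pow_card_eq_one, Units.val_one, map_one]
  exact Complex.norm_eq_one_of_pow_eq_one h Fintype.card_ne_zero

theorem fourth_moment (hF : ringChar F ≠ 2) (η : MulChar F ℂ) (hη : η ≠ 1) :
    ∑ Q : F × F × F, ‖∑ x : Fˣ, ((quadraticChar F (ev Q (x : F)) : ℤ) : ℂ) * η (x : F)‖ ^ 4 ≤
      20 * (Fintype.card F : ℝ) ^ 5 := by
  have hsum : ∑ x : Fˣ, η (x : F) = 0 := by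
    rw [fourth_sum_units (fun x => η x) (MulChar.map_zero η)]
    exact MulChar.sum_eq_zero_of_ne_one hη
  set Φ : Fˣ → Fˣ → Fˣ → Fˣ → ℂ := fun x₁ x₂ x₃ x₄ =>
    η (x₁ : F) * η (x₂ : F) * starRingEnd ℂ (η (x₃ : F)) * starRingEnd ℂ (η (x₄ : F)) with hΦ
  set a0 : ℂ := (Fintype.card F : ℂ) * ((Fintype.card F : ℂ) - 1) with ha0
  have hΦ0 : ∑ x₁ : Fˣ, ∑ x₂ : Fˣ, ∑ x₃ : Fˣ, ∑ x₄ : Fˣ, Φ x₁ x₂ x₃ x₄ = 0 := by
    simp only [hΦ, ← Finset.mul_sum, ← Finset.sum_mul, hsum]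
    simp
  have hS : ∀ Q : F × F × F,
      ((‖∑ x : Fˣ, ((quadraticChar F (ev Q (x : F)) : ℤ) : ℂ) * η (x : F)‖ ^ 4 : ℝ) : ℂ) =
      ∑ x₁ : Fˣ, ∑ x₂ : Fˣ, ∑ x₃ : Fˣ, ∑ x₄ : Fˣ,
        ((quadraticChar F (ev Q (x₁ : F)) * quadraticChar F (ev Q (x₂ : F)) *
          quadraticChar F (ev Q (x₃ : F)) * quadraticChar F (ev Q (x₄ : F)) : ℤ) : ℂ) *
          Φ x₁ x₂ x₃ x₄ := by
    intro Q
    set S := ∑ x : Fˣ, ((quadraticChar F (ev Q (x : F)) : ℤ) : ℂ) * η (x : F) with hSdef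
    have h1 : ((‖S‖ ^ 4 : ℝ) : ℂ) = S * S * starRingEnd ℂ S * starRingEnd ℂ S := by
      have h2 : S * starRingEnd ℂ S = ((‖S‖ ^ 2 : ℝ) : ℂ) := by
        rw [Complex.mul_conj, Complex.normSq_eq_norm_sq]
      calc ((‖S‖ ^ 4 : ℝ) : ℂ) = ((‖S‖ ^ 2 : ℝ) : ℂ) * ((‖S‖ ^ 2 : ℝ) : ℂ) := by
            push_cast; ring
        _ = (S * starRingEnd ℂ S) * (S * starRingEnd ℂ S) := by rw [h2]
        _ = _ := by ring
    have h3 : starRingEnd ℂ S =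
        ∑ x : Fˣ, ((quadraticChar F (ev Q (x : F)) : ℤ) : ℂ) * starRingEnd ℂ (η (x : F)) := by
      rw [hSdef, map_sum]
      refine Finset.sum_congr rfl fun x _ => ?_
      rw [map_mul, map_intCast]
    have h5 : ∀ a b c e : Fˣ → ℂ, (∑ x, a x) * (∑ x, b x) * (∑ x, c x) * (∑ x, e x) =
        ∑ x₁, ∑ x₂, ∑ x₃, ∑ x₄, a x₁ * b x₂ * c x₃ * e x₄ := by
      intro a b c e
      simp only [← Finset.mul_sum, ← Finset.sum_mul]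
    rw [h1, h3, hSdef, h5]
    refine Finset.sum_congr rfl fun x₁ _ => Finset.sum_congr rfl fun x₂ _ =>
      Finset.sum_congr rfl fun x₃ _ => Finset.sum_congr rfl fun x₄ _ => ?_
    simp only [hΦ]
    push_cast
    ring
  have hT : ((∑ Q : F × F × F,
      ‖∑ x : Fˣ, ((quadraticChar F (ev Q (x : F)) : ℤ) : ℂ) * η (x : F)‖ ^ 4 : ℝ) : ℂ) =
      ∑ x₁ : Fˣ, ∑ x₂ : Fˣ, ∑ x₃ : Fˣ, ∑ x₄ : Fˣ,
        (((cor (x₁ : F) x₂ x₃ x₄ : ℤ) : ℂ) - a0) * Φ x₁ x₂ x₃ x₄ := by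
    have e1 : ∑ x₁ : Fˣ, ∑ x₂ : Fˣ, ∑ x₃ : Fˣ, ∑ x₄ : Fˣ,
        (((cor (x₁ : F) x₂ x₃ x₄ : ℤ) : ℂ) - a0) * Φ x₁ x₂ x₃ x₄ =
        ∑ x₁ : Fˣ, ∑ x₂ : Fˣ, ∑ x₃ : Fˣ, ∑ x₄ : Fˣ,
          ((cor (x₁ : F) x₂ x₃ x₄ : ℤ) : ℂ) * Φ x₁ x₂ x₃ x₄ := by
      have : ∑ x₁ : Fˣ, ∑ x₂ : Fˣ, ∑ x₃ : Fˣ, ∑ x₄ : Fˣ, a0 * Φ x₁ x₂ x₃ x₄ = 0 := by
        simp only [← Finset.mul_sum, hΦ0, mul_zero]
      simp only [sub_mul, Finset.sum_sub_distrib, this, sub_zero]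
    rw [e1, Complex.ofReal_sum]
    simp only [hS]
    rw [Finset.sum_comm]
    refine Finset.sum_congr rfl fun x₁ _ => ?_
    rw [Finset.sum_comm]
    refine Finset.sum_congr rfl fun x₂ _ => ?_
    rw [Finset.sum_comm]
    refine Finset.sum_congr rfl fun x₃ _ => ?_
    rw [Finset.sum_comm]
    refine Finset.sum_congr rfl fun x₄ _ => ?_
    unfold cor
    rw [Int.cast_sum, Finset.sum_mul]
  have hnn : 0 ≤ ∑ Q : F × F × F,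
      ‖∑ x : Fˣ, ((quadraticChar F (ev Q (x : F)) : ℤ) : ℂ) * η (x : F)‖ ^ 4 :=
    Finset.sum_nonneg fun Q _ => by positivity
  have hTn : ∑ Q : F × F × F,
      ‖∑ x : Fˣ, ((quadraticChar F (ev Q (x : F)) : ℤ) : ℂ) * η (x : F)‖ ^ 4 =
      ‖((∑ Q : F × F × F,
      ‖∑ x : Fˣ, ((quadraticChar F (ev Q (x : F)) : ℤ) : ℂ) * η (x : F)‖ ^ 4 : ℝ) : ℂ)‖ := by
    rw [Complex.norm_real, Real.norm_of_nonneg hnn]
  rw [hTn, hT]
  have hcard : (Fintype.card Fˣ : ℝ) ≤ Fintype.card F := by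
    exact_mod_cast Fintype.card_le_of_injective (fun x : Fˣ => (x : F)) Units.val_injective
  refine le_trans ?_ (fourth_e_sum (α := Fˣ) (Fintype.card F : ℝ) hcard)
  refine (norm_sum_le _ _).trans (Finset.sum_le_sum fun x₁ _ => ?_)
  refine (norm_sum_le _ _).trans (Finset.sum_le_sum fun x₂ _ => ?_)
  refine (norm_sum_le _ _).trans (Finset.sum_le_sum fun x₃ _ => ?_)
  refine (norm_sum_le _ _).trans (Finset.sum_le_sum fun x₄ _ => ?_)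
  have hΦ1 : ‖Φ x₁ x₂ x₃ x₄‖ = 1 := by
    simp only [hΦ, norm_mul, RCLike.norm_conj, fourth_norm, mul_one]
  rw [norm_mul, hΦ1, mul_one]
  have := fourth_bound hF x₁ x₂ x₃ x₄
  refine le_trans (le_of_eq ?_) this
  have hre : ((cor (x₁ : F) x₂ x₃ x₄ : ℤ) : ℂ) - a0 =
      ((((cor (x₁ : F) x₂ x₃ x₄ : ℤ) : ℝ) -
        (Fintype.card F : ℝ) * ((Fintype.card F : ℝ) - 1) : ℝ) : ℂ) := by
    rw [ha0]
    push_cast
    ring
  rw [hre, Complex.norm_real, Real.norm_eq_abs]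

end Pool.Agent.Lib.MP_6179b0_nt
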