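import Mathlib
import Pool.Agent.Lib.MP_6179b0_nt.Defs
import Pool.Agent.Lib.MP_6179b0_nt.Fourth

set_option autoImplicit false

namespace Pool.Agent.Lib.MP_6179b0_nt

open Finset

section general

variable {F : Type} [Field F] [Fintype F] [DecidableEq F]

theorem char_sum_sq (hF : ringChar F ≠ 2) (f : F → ℤ) :
    ∑ t : F, f (t ^ 2) = ∑ u : F, (quadraticChar F u + 1) * f u := by
  rw [← Finset.sum_fiberwise' Finset.univ (fun t : F => t ^ 2) f]
  refine Finset.sum_congr rfl fun u _ => ?_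
  rw [← quadraticChar_card_sqrts hF u, Finset.sum_const, nsmul_eq_mul]
  congr 2
  congr 1
  ext t
  simp

theorem char_quad (hF : ringChar F ≠ 2) (a b : F) (h : a ^ 2 ≠ 4 * b) :
    ∑ x : F, quadraticChar F (x ^ 2 + a * x + b) = -1 := by
  have h2 : (2 : F) ≠ 0 := Ring.two_ne_zero hF
  have h4 : (4 : F) ≠ 0 := by
    rw [show (4 : F) = 2 * 2 by norm_num]
    exact mul_ne_zero h2 h2
  set c : F := a ^ 2 / 4 - b with hc
  have hc0 : c ≠ 0 := by
    intro h0
    apply h
    rw [hc, sub_eq_zero, div_eq_iff h4] at h0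
    rw [h0]; ring
  have e1 : ∑ x : F, quadraticChar F (x ^ 2 + a * x + b) =
      ∑ t : F, quadraticChar F (t ^ 2 - c) := by
    rw [← Equiv.sum_comp (Equiv.addRight (a / 2)) (fun t => quadraticChar F (t ^ 2 - c))]
    refine Finset.sum_congr rfl fun x _ => ?_
    congr 1
    simp only [Equiv.coe_addRight, hc]
    field_simp
    ring
  rw [e1, char_sum_sq hF (fun u => quadraticChar F (u - c))]
  have e2 : ∑ u : F, (quadraticChar F u + 1) * quadraticChar F (u - c) =
      ∑ u : F, quadraticChar F u * quadraticChar F (u - c) + ∑ u : F, quadraticChar F (u - c) := by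
    rw [← Finset.sum_add_distrib]
    exact Finset.sum_congr rfl fun u _ => by ring
  have e3 : ∑ u : F, quadraticChar F (u - c) = 0 := by
    rw [← quadraticChar_sum_zero hF, ← Equiv.sum_comp (Equiv.subRight c) (fun t => quadraticChar F t)]
    rfl
  have e4 : ∑ u : F, quadraticChar F u * quadraticChar F (u - c) =
      quadraticChar F (-1) * jacobiSum (quadraticChar F) (quadraticChar F)⁻¹ := by
    rw [(quadraticChar_isQuadratic (F := F)).inv, jacobiSum, Finset.mul_sum,
      ← Equiv.sum_comp (Equiv.mulLeft₀ c hc0)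
        (fun u => quadraticChar F u * quadraticChar F (u - c))]
    refine Finset.sum_congr rfl fun v _ => ?_
    have hv : Equiv.mulLeft₀ c hc0 v = c * v := rfl
    rw [hv, show c * v - c = c * (-1) * (1 - v) by ring, map_mul, map_mul, map_mul]
    have := quadraticChar_sq_one hc0
    calc quadraticChar F c * quadraticChar F v *
          (quadraticChar F c * quadraticChar F (-1) * quadraticChar F (1 - v))
        = quadraticChar F c ^ 2 * (quadraticChar F (-1) *
          (quadraticChar F v * quadraticChar F (1 - v))) := by ring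
      _ = _ := by rw [this, one_mul]
  rw [e2, e3, e4, add_zero, jacobiSum_nontrivial_inv (quadraticChar_ne_one hF)]
  have := quadraticChar_sq_one (F := F) (a := -1) (by simp)
  linarith

theorem char_norm_quad {x : F} (hx : x ≠ 0) : ‖((quadraticChar F x : ℤ) : ℂ)‖ = 1 := by
  rcases quadraticChar_dichotomy hx with h | h <;> simp [h]

/-- The complete sum for `η ≠ 1`. -/
theorem char_nontrivial (hF : ringChar F ≠ 2) (hq : 3 ≤ Fintype.card F) (a b : F) (hb : b ≠ 0)
    (η : MulChar F ℂ) (hη : η ≠ 1) :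
    ‖∑ x : Fˣ, ((quadraticChar F ((x : F) ^ 2 + a * x + b) : ℤ) : ℂ) * η (x : F)‖ ^ 4 ≤
      90 * (Fintype.card F : ℝ) ^ 3 := by
  set S0 := ∑ x : Fˣ, ((quadraticChar F ((x : F) ^ 2 + a * x + b) : ℤ) : ℂ) * η (x : F) with hS0
  set g : F × F × F → ℝ := fun Q =>
    ‖∑ x : Fˣ, ((quadraticChar F (ev Q (x : F)) : ℤ) : ℂ) * η (x : F)‖ ^ 4 with hg
  have hm := fourth_moment hF η hη
  set f : Fˣ × Fˣ → F × F × F := fun z =>
    ((z.1 : F), (z.1 : F) * a * (z.2 : F), (z.1 : F) * b * (z.2 : F) ^ 2) with hf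
  have hgf : ∀ z : Fˣ × Fˣ, g (f z) = ‖S0‖ ^ 4 := by
    rintro ⟨c, u⟩
    simp only [hg, hf]
    have h1 : ∑ x : Fˣ, ((quadraticChar F (ev ((c : F), (c : F) * a * (u : F),
        (c : F) * b * (u : F) ^ 2) (x : F)) : ℤ) : ℂ) * η (x : F) =
        ((quadraticChar F (c : F) : ℤ) : ℂ) * η (u : F) * S0 := by
      rw [← Equiv.sum_comp (Equiv.mulLeft u), hS0, Finset.mul_sum]
      refine Finset.sum_congr rfl fun y _ => ?_
      simp only [Equiv.coe_mulLeft, Units.val_mul, map_mul]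
      have h2 : ev ((c : F), (c : F) * a * (u : F), (c : F) * b * (u : F) ^ 2)
          ((u : F) * (y : F)) = (c : F) * (u : F) ^ 2 * ((y : F) ^ 2 + a * y + b) := by
        simp only [ev]
        ring
      rw [h2, map_mul, map_mul, quadraticChar_sq_one' (Units.ne_zero u)]
      push_cast
      ring
    rw [h1, norm_mul, norm_mul, char_norm_quad (Units.ne_zero c), fourth_norm, one_mul, one_mul]
  have hsum1 : ∑ z : Fˣ × Fˣ, g (f z) = ((Fintype.card F : ℝ) - 1) ^ 2 * ‖S0‖ ^ 4 := by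
    simp only [hgf, Finset.sum_const, Finset.card_univ, Fintype.card_prod, nsmul_eq_mul]
    rw [Fintype.card_units, Nat.cast_mul, Nat.cast_sub (by omega)]
    push_cast
    ring
  have hsum2 : ∑ z : Fˣ × Fˣ, g (f z) ≤ 2 * ∑ Q : F × F × F, g Q := by
    rw [← Finset.sum_fiberwise' Finset.univ f g, Finset.mul_sum]
    refine Finset.sum_le_sum fun Q _ => ?_
    rw [Finset.sum_const, nsmul_eq_mul]
    have hgQ : 0 ≤ g Q := by simp only [hg]; positivity
    refine mul_le_mul_of_nonneg_right ?_ hgQ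
    by_cases hne : (Finset.univ.filter fun z : Fˣ × Fˣ => f z = Q).Nonempty
    · obtain ⟨⟨c, u⟩, hcu⟩ := hne
      have hcu' : f (c, u) = Q := by simpa using hcu
      have hsub : (Finset.univ.filter fun z : Fˣ × Fˣ => f z = Q) ⊆ {(c, u), (c, -u)} := by
        rintro ⟨c', u'⟩ h
        have h' : f (c', u') = Q := by simpa using h
        rw [← hcu'] at h'
        simp only [hf, Prod.mk.injEq] at h'
        obtain ⟨h1, -, h3⟩ := h'
        have hc : c' = c := Units.ext h1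
        subst hc
        have h4 : (u' : F) ^ 2 = (u : F) ^ 2 :=
          mul_left_cancel₀ (mul_ne_zero (Units.ne_zero c') hb) h3
        rcases sq_eq_sq_iff_eq_or_eq_neg.1 h4 with h5 | h5
        · have : u' = u := Units.ext h5
          simp [this]
        · have : u' = -u := Units.ext (by rw [h5]; simp)
          simp [this]
      have h2 := (Finset.card_le_card hsub).trans Finset.card_le_two
      exact_mod_cast h2
    · rw [Finset.not_nonempty_iff_eq_empty] at hne
      rw [hne]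
      simp
  have hq' : (3 : ℝ) ≤ Fintype.card F := by exact_mod_cast hq
  set q : ℝ := (Fintype.card F : ℝ) with hqd
  have h1 : (q - 1) ^ 2 * ‖S0‖ ^ 4 ≤ 40 * q ^ 5 := by
    rw [← hsum1]
    refine hsum2.trans ?_
    have : ∑ Q : F × F × F, g Q ≤ 20 * q ^ 5 := hm
    linarith
  have h2 : q ^ 2 ≤ 9 / 4 * (q - 1) ^ 2 := by nlinarith
  have h3 : (q - 1) ^ 2 * ‖S0‖ ^ 4 ≤ (q - 1) ^ 2 * (90 * q ^ 3) := by
    refine h1.trans ?_
    have h4 : 0 ≤ 40 * q ^ 3 := by positivity
    nlinarith [mul_le_mul_of_nonneg_left h2 h4]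
  have h4 : 0 < (q - 1) ^ 2 := by
    have : 0 < q - 1 := by linarith
    positivity
  exact le_of_mul_le_mul_left h3 h4

theorem char_trivial (hF : ringChar F ≠ 2) (a b : F) (h : a ^ 2 ≠ 4 * b) :
    ‖∑ x : Fˣ, ((quadraticChar F ((x : F) ^ 2 + a * x + b) : ℤ) : ℂ)‖ ≤ 2 := by
  have h1 := fourth_sum_units (F := F)
    (fun x => ((quadraticChar F (x ^ 2 + a * x + b) : ℤ) : ℂ) -
      if x = 0 then ((quadraticChar F b : ℤ) : ℂ) else 0) (by simp)
  have h2 : ∑ x : Fˣ, (((quadraticChar F ((x : F) ^ 2 + a * x + b) : ℤ) : ℂ) -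
      if (x : F) = 0 then ((quadraticChar F b : ℤ) : ℂ) else 0) =
      ∑ x : Fˣ, ((quadraticChar F ((x : F) ^ 2 + a * x + b) : ℤ) : ℂ) :=
    Finset.sum_congr rfl fun x _ => by rw [if_neg (Units.ne_zero x), sub_zero]
  have h5 : ∑ x : F, ((quadraticChar F (x ^ 2 + a * x + b) : ℤ) : ℂ) = ((-1 : ℤ) : ℂ) := by
    rw [← Int.cast_sum, char_quad hF a b h]
  rw [h2, Finset.sum_sub_distrib, Finset.sum_ite_eq' Finset.univ (0 : F), if_pos (Finset.mem_univ _),
    h5] at h1
  rw [h1]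
  have h3 : ‖((quadraticChar F b : ℤ) : ℂ)‖ ≤ 1 := by
    by_cases hb : b = 0
    · simp [hb]
    · exact (char_norm_quad hb).le
  calc ‖((-1 : ℤ) : ℂ) - ((quadraticChar F b : ℤ) : ℂ)‖ ≤ ‖((-1 : ℤ) : ℂ)‖ +
        ‖((quadraticChar F b : ℤ) : ℂ)‖ := norm_sub_le _ _
    _ ≤ 1 + 1 := by
        gcongr
        simp
    _ = 2 := by norm_num

end general

theorem bnd_three_quarters : Bnd 4 (3 / 4) := by
  intro p hp hp2 a b hb hab ψ
  have hF : ringChar (ZMod p) ≠ 2 := by rw [ZMod.ringChar_zmod_n]; exact hp2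
  have hp3 : 3 ≤ p := by
    have := hp.out.two_le
    omega
  have hcard : Fintype.card (ZMod p) = p := ZMod.card p
  have hp1 : (1 : ℝ) ≤ p := by exact_mod_cast (by omega : 1 ≤ p)
  set χC : MulChar (ZMod p) ℂ := (quadraticChar (ZMod p)).ringHomComp (Int.castRingHom ℂ) with hχC
  have hχa : ∀ x : ZMod p, χC x = ((quadraticChar (ZMod p) x : ℤ) : ℂ) := fun x => rfl
  set η : MulChar (ZMod p) ℂ := ψ * χC with hη
  have hsum : ∑ x : (ZMod p)ˣ, ((quadraticChar (ZMod p)
          ((x : ZMod p) + b * ((x⁻¹ : (ZMod p)ˣ) : ZMod p) + a) : ℤ) : ℂ) * ψ (x : ZMod p) =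
      ∑ x : (ZMod p)ˣ, ((quadraticChar (ZMod p) ((x : ZMod p) ^ 2 + a * x + b) : ℤ) : ℂ) *
        η (x : ZMod p) := by
    refine Finset.sum_congr rfl fun x _ => ?_
    have h1 : (x : ZMod p) ^ 2 + a * x + b =
        (x : ZMod p) * ((x : ZMod p) + b * ((x⁻¹ : (ZMod p)ˣ) : ZMod p) + a) := by
      have h2 : (x : ZMod p) * ((x⁻¹ : (ZMod p)ˣ) : ZMod p) = 1 := Units.mul_inv x
      linear_combination (-b) * h2
    rw [h1, map_mul, hη, MulChar.mul_apply, hχa]
    have h3 := quadraticChar_sq_one (F := ZMod p) (Units.ne_zero x)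
    have h4 : ((quadraticChar (ZMod p) (x : ZMod p) : ℤ) : ℂ) ^ 2 = 1 := by
      exact_mod_cast h3
    rw [Int.cast_mul]
    linear_combination (-(((quadraticChar (ZMod p)
      ((x : ZMod p) + b * ((x⁻¹ : (ZMod p)ˣ) : ZMod p) + a) : ℤ) : ℂ) * ψ (x : ZMod p))) * h4
  rw [hsum]
  by_cases h1 : η = 1
  · rw [h1]
    have h2 := char_trivial hF a b hab
    have h3 : ∑ x : (ZMod p)ˣ, ((quadraticChar (ZMod p) ((x : ZMod p) ^ 2 + a * x + b) : ℤ) : ℂ) *
        (1 : MulChar (ZMod p) ℂ) (x : ZMod p) =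
        ∑ x : (ZMod p)ˣ, ((quadraticChar (ZMod p) ((x : ZMod p) ^ 2 + a * x + b) : ℤ) : ℂ) :=
      Finset.sum_congr rfl fun x _ => by rw [MulChar.one_apply_coe, mul_one]
    rw [h3]
    refine h2.trans ?_
    have h4 : (1 : ℝ) ≤ (p : ℝ) ^ (3 / 4 : ℝ) := Real.one_le_rpow hp1 (by norm_num)
    linarith
  · have h2 := char_nontrivial hF (by rw [hcard]; exact hp3) a b hb η h1
    rw [hcard] at h2
    have h3 : (4 * (p : ℝ) ^ (3 / 4 : ℝ)) ^ 4 = 256 * (p : ℝ) ^ 3 := by
      rw [mul_pow, ← Real.rpow_natCast ((p : ℝ) ^ (3 / 4 : ℝ)) 4, ← Real.rpow_mul (by positivity),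
        ← Real.rpow_natCast (p : ℝ) 3]
      norm_num
    refine le_of_pow_le_pow_left₀ (n := 4) (by norm_num) (by positivity) ?_
    rw [h3]
    refine h2.trans ?_
    have : 0 ≤ (p : ℝ) ^ 3 := by positivity
    linarith

end Pool.Agent.Lib.MP_6179b0_nt
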