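import Mathlib
import Pool.Agent.Lib.MP_6179b0_nt.Bilin

/-!
# The `t`-th moment of the character sum over pairs of divisors
-/

set_option autoImplicit false

namespace Pool.Agent.Lib.MP_6179b0_nt

open Finset

/-- sum over tuples of the number of pairs congruent modulo all entries -/
theorem moment_sumE (Λ : Finset ℕ) (K t : ℕ) (D : Finset ℤ)
    (hK : ∀ n ∈ D, ∀ n' ∈ D, n ≠ n' → (Λ.filter (fun ℓ : ℕ => (ℓ : ℤ) ∣ n - n')).card ≤ K)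
    (hP : Λ.card ^ t ≤ D.card) (hK1 : 1 ≤ K) :
    ∑ p ∈ Fintype.piFinset (fun _ : Fin t => Λ),
      (((D ×ˢ D).filter (fun z => ∀ i, ((p i : ℕ) : ℤ) ∣ z.1 - z.2)).card : ℝ) ≤
        2 * (D.card : ℝ) ^ 2 * (K : ℝ) ^ t := by
  have h1 : ∑ p ∈ Fintype.piFinset (fun _ : Fin t => Λ),
      ((D ×ˢ D).filter (fun z => ∀ i, ((p i : ℕ) : ℤ) ∣ z.1 - z.2)).card =
      ∑ z ∈ D ×ˢ D, (Λ.filter (fun ℓ : ℕ => (ℓ : ℤ) ∣ z.1 - z.2)).card ^ t := by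
    simp_rw [Finset.card_filter]
    rw [Finset.sum_comm]
    refine Finset.sum_congr rfl fun z _ => ?_
    rw [← Finset.card_filter, ← Finset.card_filter]
    have : (Fintype.piFinset (fun _ : Fin t => Λ)).filter
        (fun p => ∀ i, ((p i : ℕ) : ℤ) ∣ z.1 - z.2) =
        Fintype.piFinset (fun _ : Fin t => Λ.filter (fun ℓ : ℕ => (ℓ : ℤ) ∣ z.1 - z.2)) := by
      ext p
      simp only [Finset.mem_filter, Fintype.mem_piFinset]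
      constructor
      · rintro ⟨h1, h2⟩ i
        exact ⟨h1 i, h2 i⟩
      · intro h
        exact ⟨fun i => (h i).1, fun i => (h i).2⟩
    rw [this, Fintype.card_piFinset]
    simp
  have h2 : ∑ z ∈ D ×ˢ D, (Λ.filter (fun ℓ : ℕ => (ℓ : ℤ) ∣ z.1 - z.2)).card ^ t ≤
      2 * D.card ^ 2 * K ^ t := by
    have h3 : ∀ z ∈ D ×ˢ D, (Λ.filter (fun ℓ : ℕ => (ℓ : ℤ) ∣ z.1 - z.2)).card ^ t ≤
        (if z.1 = z.2 then D.card else 0) + K ^ t := by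
      intro z hz
      rw [Finset.mem_product] at hz
      split_ifs with h
      · refine le_trans ?_ (Nat.le_add_right _ _)
        refine le_trans (Nat.pow_le_pow_left (Finset.card_filter_le _ _) t) hP
      · rw [zero_add]
        exact Nat.pow_le_pow_left (hK z.1 hz.1 z.2 hz.2 h) t
    refine le_trans (Finset.sum_le_sum h3) ?_
    rw [Finset.sum_add_distrib, Finset.sum_const, Finset.card_product, smul_eq_mul]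
    have h4 : ∑ z ∈ D ×ˢ D, (if z.1 = z.2 then D.card else 0) = D.card ^ 2 := by
      rw [Finset.sum_product]
      have : ∀ x ∈ D, ∑ y ∈ D, (if (x, y).1 = (x, y).2 then D.card else 0) = D.card := by
        intro x hx
        simp [hx]
      rw [Finset.sum_congr rfl this, Finset.sum_const, smul_eq_mul, pow_two]
    rw [h4]
    have h5 : 1 ≤ K ^ t := Nat.one_le_pow _ _ hK1
    nlinarith [Nat.zero_le (D.card ^ 2)]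
  have h6 : (∑ p ∈ Fintype.piFinset (fun _ : Fin t => Λ),
      (((D ×ˢ D).filter (fun z => ∀ i, ((p i : ℕ) : ℤ) ∣ z.1 - z.2)).card : ℝ)) =
      ((∑ p ∈ Fintype.piFinset (fun _ : Fin t => Λ),
      ((D ×ˢ D).filter (fun z => ∀ i, ((p i : ℕ) : ℤ) ∣ z.1 - z.2)).card : ℕ) : ℝ) := by
    push_cast
    rfl
  rw [h6, h1]
  exact_mod_cast h2

theorem moment {C κ : ℝ} (h : Bnd C κ) (hC : 0 ≤ C) (hκ : 0 ≤ κ) (a b : ℤ) (Λ : Finset ℕ)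
    (Y K t : ℕ)
    (hΛ : ∀ ℓ ∈ Λ, ℓ.Prime ∧ ℓ ≠ 2 ∧ ¬ (ℓ : ℤ) ∣ b ∧ ¬ (ℓ : ℤ) ∣ a ^ 2 - 4 * b ∧ ℓ ≤ Y)
    (D₁ D₂ : Finset ℤ) (h₁ : ∀ n ∈ D₁, n ∣ b) (h₂ : ∀ n ∈ D₂, n ∣ b)
    (hD : ∀ n₁ ∈ D₁, ∀ n₂ ∈ D₂, n₁ * n₂ ∣ b)
    (hK₁ : ∀ n ∈ D₁, ∀ n' ∈ D₁, n ≠ n' → (Λ.filter (fun ℓ : ℕ => (ℓ : ℤ) ∣ n - n')).card ≤ K)
    (hK₂ : ∀ n ∈ D₂, ∀ n' ∈ D₂, n ≠ n' → (Λ.filter (fun ℓ : ℕ => (ℓ : ℤ) ∣ n - n')).card ≤ K)
    (hP₁ : Λ.card ^ t ≤ D₁.card) (hP₂ : Λ.card ^ t ≤ D₂.card) (hK : 1 ≤ K) :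
    ∑ n₁ ∈ D₁, ∑ n₂ ∈ D₂, (∑ ℓ ∈ Λ, (jacobiSym (n₁ * n₂ + b / (n₁ * n₂) + a) ℓ : ℝ)) ^ t ≤
      2 * D₁.card * D₂.card * (C * (Y : ℝ) ^ κ * K) ^ t := by
  have e1 : ∑ n₁ ∈ D₁, ∑ n₂ ∈ D₂,
      (∑ ℓ ∈ Λ, (jacobiSym (n₁ * n₂ + b / (n₁ * n₂) + a) ℓ : ℝ)) ^ t =
      ∑ p ∈ Fintype.piFinset (fun _ : Fin t => Λ),
        ∑ n₁ ∈ D₁, ∑ n₂ ∈ D₂, ∏ i, (jacobiSym (n₁ * n₂ + b / (n₁ * n₂) + a) (p i) : ℝ) := by
    have e2 : ∀ n₁ n₂ : ℤ, (∑ ℓ ∈ Λ, (jacobiSym (n₁ * n₂ + b / (n₁ * n₂) + a) ℓ : ℝ)) ^ t =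
        ∑ p ∈ Fintype.piFinset (fun _ : Fin t => Λ),
          ∏ i, (jacobiSym (n₁ * n₂ + b / (n₁ * n₂) + a) (p i) : ℝ) := by
      intro n₁ n₂
      have := Finset.prod_univ_sum (fun _ : Fin t => Λ)
        (fun _ ℓ => (jacobiSym (n₁ * n₂ + b / (n₁ * n₂) + a) ℓ : ℝ))
      rw [← this]
      simp
    simp_rw [e2]
    calc ∑ n₁ ∈ D₁, ∑ n₂ ∈ D₂, ∑ p ∈ Fintype.piFinset (fun _ : Fin t => Λ),
          ∏ i, (jacobiSym (n₁ * n₂ + b / (n₁ * n₂) + a) (p i) : ℝ)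
        = ∑ n₁ ∈ D₁, ∑ p ∈ Fintype.piFinset (fun _ : Fin t => Λ), ∑ n₂ ∈ D₂,
          ∏ i, (jacobiSym (n₁ * n₂ + b / (n₁ * n₂) + a) (p i) : ℝ) := by
            refine Finset.sum_congr rfl fun n₁ _ => Finset.sum_comm
      _ = _ := Finset.sum_comm
  rw [e1]
  obtain ⟨Z, hZ⟩ : ∃ Z : ℝ, Z = C * (Y : ℝ) ^ κ := ⟨_, rfl⟩
  rw [← hZ]
  have hZ0 : 0 ≤ Z := by rw [hZ]; positivity
  obtain ⟨E₁, hE₁⟩ : ∃ E : (Fin t → ℕ) → ℝ, E = fun p =>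
    (((D₁ ×ˢ D₁).filter (fun z => ∀ i, ((p i : ℕ) : ℤ) ∣ z.1 - z.2)).card : ℝ) := ⟨_, rfl⟩
  obtain ⟨E₂, hE₂⟩ : ∃ E : (Fin t → ℕ) → ℝ, E = fun p =>
    (((D₂ ×ˢ D₂).filter (fun z => ∀ i, ((p i : ℕ) : ℤ) ∣ z.1 - z.2)).card : ℝ) := ⟨_, rfl⟩
  have n1 : ∀ p, 0 ≤ E₁ p := by intro p; rw [hE₁]; positivity
  have n2 : ∀ p, 0 ≤ E₂ p := by intro p; rw [hE₂]; positivity
  have e3 : ∀ p ∈ Fintype.piFinset (fun _ : Fin t => Λ),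
      ∑ n₁ ∈ D₁, ∑ n₂ ∈ D₂, ∏ i, (jacobiSym (n₁ * n₂ + b / (n₁ * n₂) + a) (p i) : ℝ) ≤
      Z ^ t * (√(E₁ p) * √(E₂ p)) := by
    intro p hp
    rw [Fintype.mem_piFinset] at hp
    have hb := bilin h hC a b p (fun i => (hΛ _ (hp i)).1) (fun i => (hΛ _ (hp i)).2.1)
      (fun i => (hΛ _ (hp i)).2.2.1) (fun i => (hΛ _ (hp i)).2.2.2.1) D₁ D₂ h₁ h₂ hD
    rw [hE₁, hE₂]
    refine le_trans (le_abs_self _) (le_trans hb ?_)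
    rw [mul_assoc]
    refine mul_le_mul_of_nonneg_right ?_ (mul_nonneg (Real.sqrt_nonneg _) (Real.sqrt_nonneg _))
    have h9 : ∏ i, (C * ((p i : ℕ) : ℝ) ^ κ) ≤ ∏ _i : Fin t, Z := by
      refine Finset.prod_le_prod (fun i _ => by positivity) fun i _ => ?_
      rw [hZ]
      refine mul_le_mul_of_nonneg_left ?_ hC
      refine Real.rpow_le_rpow (by positivity) ?_ hκ
      exact_mod_cast (hΛ _ (hp i)).2.2.2.2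
    rw [Finset.prod_const, Finset.card_univ, Fintype.card_fin] at h9
    exact h9
  refine le_trans (Finset.sum_le_sum e3) ?_
  rw [← Finset.mul_sum]
  have e4 := Real.sum_sqrt_mul_sqrt_le (Fintype.piFinset (fun _ : Fin t => Λ))
    (f := E₁) (g := E₂) n1 n2
  have e5 : ∑ p ∈ Fintype.piFinset (fun _ : Fin t => Λ), E₁ p ≤
      2 * (D₁.card : ℝ) ^ 2 * (K : ℝ) ^ t := by
    rw [hE₁]; exact moment_sumE Λ K t D₁ hK₁ hP₁ hK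
  have e6 : ∑ p ∈ Fintype.piFinset (fun _ : Fin t => Λ), E₂ p ≤
      2 * (D₂.card : ℝ) ^ 2 * (K : ℝ) ^ t := by
    rw [hE₂]; exact moment_sumE Λ K t D₂ hK₂ hP₂ hK
  have e7 : √(∑ p ∈ Fintype.piFinset (fun _ : Fin t => Λ), E₁ p) *
      √(∑ p ∈ Fintype.piFinset (fun _ : Fin t => Λ), E₂ p) ≤
      2 * D₁.card * D₂.card * (K : ℝ) ^ t := by
    refine le_trans (mul_le_mul (Real.sqrt_le_sqrt e5) (Real.sqrt_le_sqrt e6)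
      (Real.sqrt_nonneg _) (Real.sqrt_nonneg _)) ?_
    rw [← Real.sqrt_mul (by positivity)]
    have h8 : 2 * (D₁.card : ℝ) ^ 2 * (K : ℝ) ^ t * (2 * (D₂.card : ℝ) ^ 2 * (K : ℝ) ^ t) =
        (2 * D₁.card * D₂.card * (K : ℝ) ^ t) ^ 2 := by ring
    rw [h8, Real.sqrt_sq (by positivity)]
  have e8 : Z ^ t * ∑ p ∈ Fintype.piFinset (fun _ : Fin t => Λ), √(E₁ p) * √(E₂ p) ≤
      Z ^ t * (2 * D₁.card * D₂.card * (K : ℝ) ^ t) :=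
    mul_le_mul_of_nonneg_left (le_trans e4 e7) (by positivity)
  refine le_trans e8 (le_of_eq ?_)
  rw [mul_pow]; ring

end Pool.Agent.Lib.MP_6179b0_nt
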