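import Mathlib
import Pool.Agent.Lib.MP_6179b0_nt.Moment

/-!
# Counting pairs of divisors for which `n + b / n + a` is a square
-/

set_option autoImplicit false

namespace Pool.Agent.Lib.MP_6179b0_nt

open Finset

theorem count_jac_sq (ℓ : ℕ) (hℓ : ℓ.Prime) (m : ℤ) (hm : ¬ (ℓ : ℤ) ∣ m) :
    jacobiSym (m * m) ℓ = 1 := by
  have := Fact.mk hℓ
  rw [← jacobiSym.legendreSym.to_jacobiSym]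
  have h0 : (m : ZMod ℓ) ≠ 0 := by
    intro h
    exact hm ((ZMod.intCast_zmod_eq_zero_iff_dvd m ℓ).1 h)
  rw [legendreSym.mul, ← pow_two]
  exact legendreSym.sq_one ℓ h0

theorem count_sum (Λ : Finset ℕ) (hΛ : ∀ ℓ ∈ Λ, ℓ.Prime) (m : ℤ)
    (hm : 2 * (Λ.filter (fun ℓ : ℕ => (ℓ : ℤ) ∣ m)).card ≤ Λ.card) :
    (Λ.card : ℝ) / 2 ≤ ∑ ℓ ∈ Λ, (jacobiSym (m * m) ℓ : ℝ) := by
  have h1 : ∀ ℓ ∈ Λ, (1 : ℝ) - (if (ℓ : ℤ) ∣ m then 1 else 0) ≤ (jacobiSym (m * m) ℓ : ℝ) := by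
    intro ℓ hℓ
    split_ifs with h
    · have h0 : jacobiSym (m * m) ℓ = jacobiSym m ℓ * jacobiSym m ℓ := jacobiSym.mul_left m m ℓ
      rw [h0]
      push_cast
      nlinarith [mul_self_nonneg ((jacobiSym m ℓ : ℤ) : ℝ)]
    · rw [count_jac_sq ℓ (hΛ ℓ hℓ) m h]
      simp
  have h2 := Finset.sum_le_sum h1
  refine le_trans ?_ h2
  rw [Finset.sum_sub_distrib, Finset.sum_const, nsmul_eq_mul, mul_one, Finset.sum_boole]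
  have h3 : 2 * ((Λ.filter (fun ℓ : ℕ => (ℓ : ℤ) ∣ m)).card : ℝ) ≤ (Λ.card : ℝ) := by
    exact_mod_cast hm
  linarith

theorem count {C κ : ℝ} (h : Bnd C κ) (hC : 0 ≤ C) (hκ : 0 ≤ κ) (a b : ℤ) (Λ : Finset ℕ)
    (Y K t : ℕ) (ht : Even t)
    (hΛ : ∀ ℓ ∈ Λ, ℓ.Prime ∧ ℓ ≠ 2 ∧ ¬ (ℓ : ℤ) ∣ b ∧ ¬ (ℓ : ℤ) ∣ a ^ 2 - 4 * b ∧ ℓ ≤ Y)
    (D₁ D₂ : Finset ℤ) (h₁ : ∀ n ∈ D₁, n ∣ b) (h₂ : ∀ n ∈ D₂, n ∣ b)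
    (hD : ∀ n₁ ∈ D₁, ∀ n₂ ∈ D₂, n₁ * n₂ ∣ b)
    (hK₁ : ∀ n ∈ D₁, ∀ n' ∈ D₁, n ≠ n' → (Λ.filter (fun ℓ : ℕ => (ℓ : ℤ) ∣ n - n')).card ≤ K)
    (hK₂ : ∀ n ∈ D₂, ∀ n' ∈ D₂, n ≠ n' → (Λ.filter (fun ℓ : ℕ => (ℓ : ℤ) ∣ n - n')).card ≤ K)
    (hP₁ : Λ.card ^ t ≤ D₁.card) (hP₂ : Λ.card ^ t ≤ D₂.card) (hK : 1 ≤ K)
    (S : Finset (ℤ × ℤ)) (hS : S ⊆ D₁ ×ˢ D₂)
    (hm : ∀ z ∈ S, ∃ m : ℤ, z.1 * z.2 + b / (z.1 * z.2) + a = m * m ∧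
      2 * (Λ.filter (fun ℓ : ℕ => (ℓ : ℤ) ∣ m)).card ≤ Λ.card) :
    (S.card : ℝ) * ((Λ.card : ℝ) / 2) ^ t ≤ 2 * D₁.card * D₂.card * (C * (Y : ℝ) ^ κ * K) ^ t := by
  refine le_trans ?_ (moment h hC hκ a b Λ Y K t hΛ D₁ D₂ h₁ h₂ hD hK₁ hK₂ hP₁ hP₂ hK)
  rw [← Finset.sum_product' D₁ D₂
    (fun n₁ n₂ => (∑ ℓ ∈ Λ, (jacobiSym (n₁ * n₂ + b / (n₁ * n₂) + a) ℓ : ℝ)) ^ t)]
  refine le_trans ?_ (Finset.sum_le_sum_of_subset_of_nonneg hS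
    (fun z _ _ => ht.pow_nonneg _))
  rw [← nsmul_eq_mul, ← Finset.sum_const]
  refine Finset.sum_le_sum fun z hz => ?_
  obtain ⟨m, hm1, hm2⟩ := hm z hz
  rw [hm1]
  exact pow_le_pow_left₀ (by positivity) (count_sum Λ (fun ℓ hℓ => (hΛ ℓ hℓ).1) m hm2) t

end Pool.Agent.Lib.MP_6179b0_nt
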