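import Mathlib

/-!
# The set of the problem: elementary facts
-/

set_option autoImplicit false

namespace Pool.Agent.Lib.MP_6179b0_nt

open Finset

theorem omega_le (Λ : Finset ℕ) (hΛ : ∀ ℓ ∈ Λ, ℓ.Prime) (m : ℤ) (hm : m ≠ 0) (K : ℕ) (hK : |m| < 2 ^ K) :
    (Λ.filter (fun ℓ : ℕ => (ℓ : ℤ) ∣ m)).card ≤ K := by
  set T := Λ.filter (fun ℓ : ℕ => (ℓ : ℤ) ∣ m) with hT
  have h1 : ∏ ℓ ∈ T, ℓ ∣ m.natAbs := by
    refine Finset.prod_primes_dvd _ (fun ℓ hℓ => ?_) (fun ℓ hℓ => ?_)
    · exact (hΛ ℓ (Finset.mem_filter.1 hℓ).1).prime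
    · exact Int.natCast_dvd.1 (Finset.mem_filter.1 hℓ).2
  have h2 : 2 ^ T.card ≤ ∏ ℓ ∈ T, ℓ := by
    rw [← Finset.prod_const]
    exact Finset.prod_le_prod' fun ℓ hℓ => (hΛ ℓ (Finset.mem_filter.1 hℓ).1).two_le
  have h3 : ∏ ℓ ∈ T, ℓ ≤ m.natAbs := Nat.le_of_dvd (Int.natAbs_pos.2 hm) h1
  have h4 : m.natAbs < 2 ^ K := by
    have : ((m.natAbs : ℕ) : ℤ) < 2 ^ K := by rw [Int.natCast_natAbs]; exact hK
    exact_mod_cast this
  have h5 : 2 ^ T.card < 2 ^ K := by omega
  exact ((Nat.pow_lt_pow_iff_right (by norm_num : 1 < 2)).1 h5).le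

/-- the set of the problem -/
def A (a b : ℤ) : Set ℤ := {n : ℤ | n ∣ b ∧ IsSquare (n + b / n + a)}

theorem SetA_div_finite (b : ℤ) (hb : b ≠ 0) : {n : ℤ | n ∣ b}.Finite := by
  refine Set.Finite.subset (Set.finite_Icc (-|b|) |b|) ?_
  intro n hn
  have h1 : |n| ≤ |b| := Int.le_of_dvd (abs_pos.2 hb) ((abs_dvd_abs n b).2 hn)
  exact abs_le.1 h1

theorem A_finite (a b : ℤ) (hb : b ≠ 0) : (A a b).Finite :=
  (SetA_div_finite b hb).subset fun _ hn => hn.1

/-! ### D4 -/
theorem zero_square (a b : ℤ) (hb : b ≠ 0) (s : ℤ) : {n : ℤ | n ∣ b ∧ n + b / n = s}.ncard ≤ 2 := by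
  rcases Set.eq_empty_or_nonempty {n : ℤ | n ∣ b ∧ n + b / n = s} with h | ⟨x, hx1, hx2⟩
  · rw [h]; simp
  · have hq : ∀ n : ℤ, n ∣ b → n + b / n = s → n * n + b = s * n := by
      intro n h1 h2
      rw [← h2, add_mul, Int.ediv_mul_cancel h1]
    have hsub : {n : ℤ | n ∣ b ∧ n + b / n = s} ⊆ (({x, s - x} : Finset ℤ) : Set ℤ) := by
      intro n hn
      have h1 := hq n hn.1 hn.2
      have h2 := hq x hx1 hx2
      have h3 : (n - x) * (n + x - s) = 0 := by linear_combination h1 - h2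
      rw [Finset.mem_coe, Finset.mem_insert, Finset.mem_singleton]
      rcases mul_eq_zero.1 h3 with h4 | h4
      · left; linarith
      · right; linarith
    refine le_trans (Set.ncard_le_ncard hsub (Finset.finite_toSet _)) ?_
    rw [Set.ncard_coe_finset]
    exact Finset.card_le_two

theorem SetA_abs_add (b n : ℤ) (hb : b ≠ 0) (hn : n ∣ b) : |n + b / n| ≤ |b| + 1 := by
  obtain ⟨k, rfl⟩ := hn
  have hn0 : n ≠ 0 := by rintro rfl; simp at hb
  have hk0 : k ≠ 0 := by rintro rfl; simp at hb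
  rw [Int.mul_ediv_cancel_left _ hn0, abs_mul]
  refine le_trans (abs_add_le _ _) ?_
  have h1 : 1 ≤ |n| := Int.one_le_abs hn0
  have h2 : 1 ≤ |k| := Int.one_le_abs hk0
  nlinarith

theorem large_a (a b : ℤ) (hb : b ≠ 0) (ha : (|b| + 1) * (|b| + 2) ≤ |a|) : (A a b).ncard ≤ 2 := by
  have hb1 : 1 ≤ |b| := Int.one_le_abs hb
  rcases Set.eq_empty_or_nonempty (A a b) with h | ⟨x, hx1, hx2⟩
  · rw [h]; simp
  · have ha0 : 0 ≤ a := by
      by_contra hneg
      push Not at hneg
      have h1 := (abs_le.1 (SetA_abs_add b x hb hx1)).2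
      obtain ⟨m, hm⟩ := hx2
      have h2 := mul_self_nonneg m
      rw [abs_of_neg hneg] at ha
      nlinarith
    rw [abs_of_nonneg ha0] at ha
    obtain ⟨m, hm⟩ := hx2
    have hsub : A a b ⊆ {n : ℤ | n ∣ b ∧ n + b / n = x + b / x} := by
      intro n hn
      obtain ⟨hn1, k, hk⟩ := hn
      refine ⟨hn1, ?_⟩
      have h1 := abs_le.1 (SetA_abs_add b x hb hx1)
      have h2 := abs_le.1 (SetA_abs_add b n hb hn1)
      have h3 : |m| = |k| := by
        have hm' : |m| * |m| = x + b / x + a := by rw [abs_mul_abs_self, hm]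
        have hk' : |k| * |k| = n + b / n + a := by rw [abs_mul_abs_self, hk]
        have hm0 := abs_nonneg m
        have hk0 := abs_nonneg k
        have hmb : |b| + 1 ≤ |m| := by
          by_contra hcon
          push Not at hcon
          nlinarith
        have hkb : |b| + 1 ≤ |k| := by
          by_contra hcon
          push Not at hcon
          nlinarith
        rcases lt_trichotomy |m| |k| with hlt | heq | hgt
        · exfalso
          have : |m| + 1 ≤ |k| := hlt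
          nlinarith
        · exact heq
        · exfalso
          have : |k| + 1 ≤ |m| := hgt
          nlinarith
      have h4 : m * m = k * k := by rw [← abs_mul_abs_self m, ← abs_mul_abs_self k, h3]
      linarith
    exact le_trans (Set.ncard_le_ncard hsub ((SetA_div_finite b hb).subset fun _ h => h.1))
      (zero_square a b hb _)

end Pool.Agent.Lib.MP_6179b0_nt
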