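import Mathlib

/-!
# Splitting an integer into coprime parts with balanced numbers of divisors
-/

set_option autoImplicit false

namespace Pool.Agent.Lib.MP_6179b0_nt

open Finset

theorem split_card (n : ℕ) (hn : n ≠ 0) (T : Finset ℕ) (hT : T ⊆ n.primeFactors) :
    (∏ p ∈ T, p ^ n.factorization p).divisors.card = ∏ p ∈ T, (n.factorization p + 1) := by
  induction T using Finset.induction_on with
  | empty => simp
  | insert p T hp ih =>
    have hpT : T ⊆ n.primeFactors := fun q hq => hT (Finset.mem_insert_of_mem hq)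
    have hpp : p.Prime := Nat.prime_of_mem_primeFactors (hT (Finset.mem_insert_self p T))
    rw [Finset.prod_insert hp, Finset.prod_insert hp, Nat.Coprime.card_divisors_mul, ih hpT]
    · rw [Nat.divisors_prime_pow hpp]
      simp
    · refine Nat.Coprime.prod_right fun q hq => ?_
      have hqp : q.Prime := Nat.prime_of_mem_primeFactors (hpT hq)
      refine Nat.Coprime.pow _ _ ?_
      rw [Nat.coprime_primes hpp hqp]
      rintro rfl
      exact hp hq

theorem split (n K : ℕ) (hn : n ≠ 0) (hK : n < 2 ^ K) : ∃ b₁ b₂ : ℕ, b₁ * b₂ = n ∧ Nat.Coprime b₁ b₂ ∧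
    n.divisors.card ≤ b₁.divisors.card ^ 2 ∧ n.divisors.card ≤ K ^ 2 * b₂.divisors.card ^ 2 := by
  classical
  obtain ⟨s, hs⟩ : ∃ s, s = n.primeFactors := ⟨_, rfl⟩
  obtain ⟨f, hf⟩ : ∃ f : ℕ → ℕ, f = fun p => n.factorization p + 1 := ⟨_, rfl⟩
  have hf1 : ∀ p, 1 ≤ f p := by intro p; rw [hf]; simp
  have hfK : ∀ p ∈ s, f p ≤ K := by
    intro p hp
    rw [hs] at hp
    have hpp := Nat.prime_of_mem_primeFactors hp
    rw [hf]
    have h1 : p ^ n.factorization p ∣ n := Nat.ordProj_dvd n p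
    have h2 : 2 ^ n.factorization p ≤ p ^ n.factorization p := Nat.pow_le_pow_left hpp.two_le _
    have h3 : p ^ n.factorization p ≤ n := Nat.le_of_dvd (Nat.pos_of_ne_zero hn) h1
    have h4 : 2 ^ n.factorization p < 2 ^ K := by omega
    have := (Nat.pow_lt_pow_iff_right (by norm_num : 1 < 2)).1 h4
    show n.factorization p + 1 ≤ K
    omega
  have hcardT : ∀ T ⊆ s, (∏ p ∈ T, p ^ n.factorization p).divisors.card = ∏ p ∈ T, f p := by
    intro T hT
    rw [hs] at hT
    rw [split_card n hn T hT, hf]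
  have hprod : ∏ p ∈ s, p ^ n.factorization p = n := by
    rw [hs]
    exact Nat.factorization_prod_pow_eq_self hn
  have hdn : n.divisors.card = ∏ p ∈ s, f p := by
    rw [← hcardT s (Finset.Subset.refl s), hprod]
  -- minimal set
  let P : Finset (Finset ℕ) := s.powerset.filter (fun T => ∏ p ∈ s, f p ≤ (∏ p ∈ T, f p) ^ 2)
  have hPne : P.Nonempty := by
    refine ⟨s, ?_⟩
    simp only [P, Finset.mem_filter, Finset.mem_powerset]
    refine ⟨Finset.Subset.refl s, ?_⟩
    have : 1 ≤ ∏ p ∈ s, f p := Finset.one_le_prod' fun p _ => hf1 p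
    nlinarith
  obtain ⟨T, hT, hTmin⟩ := Finset.exists_min_image P (fun T => T.card) hPne
  have hT' := hT
  simp only [P, Finset.mem_filter, Finset.mem_powerset] at hT'
  obtain ⟨hTs, hT2⟩ := hT'
  have hsplit : ∀ g : ℕ → ℕ, (∏ p ∈ T, g p) * (∏ p ∈ s \ T, g p) = ∏ p ∈ s, g p := by
    intro g
    rw [mul_comm]
    exact Finset.prod_sdiff hTs
  refine ⟨∏ p ∈ T, p ^ n.factorization p, ∏ p ∈ s \ T, p ^ n.factorization p, ?_, ?_, ?_, ?_⟩
  · rw [hsplit, hprod]
  · refine Nat.Coprime.prod_left fun p hp => Nat.Coprime.prod_right fun q hq => ?_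
    have hps : p ∈ n.primeFactors := hs ▸ hTs hp
    have hqs : q ∈ n.primeFactors := hs ▸ (Finset.mem_sdiff.1 hq).1
    refine Nat.Coprime.pow _ _ ?_
    rw [Nat.coprime_primes (Nat.prime_of_mem_primeFactors hps) (Nat.prime_of_mem_primeFactors hqs)]
    rintro rfl
    exact (Finset.mem_sdiff.1 hq).2 hp
  · rw [hcardT T hTs, hdn]
    exact hT2
  · rw [hcardT _ Finset.sdiff_subset, hdn]
    rcases T.eq_empty_or_nonempty with h | ⟨q, hq⟩
    · subst h
      simp only [Finset.prod_empty, one_pow] at hT2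
      have h1 : 1 ≤ ∏ p ∈ s \ ∅, f p := Finset.one_le_prod' fun p _ => hf1 p
      have hK1 : 1 ≤ K := by
        rcases Nat.eq_zero_or_pos K with h0 | h0
        · subst h0; simp at hK; omega
        · exact h0
      calc ∏ p ∈ s, f p ≤ 1 := hT2
        _ = 1 * 1 := by norm_num
        _ ≤ K ^ 2 * (∏ p ∈ s \ ∅, f p) ^ 2 :=
          Nat.mul_le_mul (Nat.one_le_pow _ _ hK1) (Nat.one_le_pow _ _ h1)
    · -- remove q
      have h1 : (∏ p ∈ T.erase q, f p) ^ 2 < ∏ p ∈ s, f p := by
        by_contra hcon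
        push Not at hcon
        have hmem : T.erase q ∈ P := by
          simp only [P, Finset.mem_filter, Finset.mem_powerset]
          exact ⟨(Finset.erase_subset _ _).trans hTs, hcon⟩
        have h2 := hTmin _ hmem
        have h3 := Finset.card_erase_lt_of_mem hq
        omega
      have h2 : f q * ∏ p ∈ T.erase q, f p = ∏ p ∈ T, f p := Finset.mul_prod_erase T f hq
      have h3 := hsplit f
      have h4 := hfK q (hTs hq)
      obtain ⟨x, hx⟩ : ∃ x, x = ∏ p ∈ T.erase q, f p := ⟨_, rfl⟩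
      obtain ⟨y, hy⟩ : ∃ y, y = ∏ p ∈ s \ T, f p := ⟨_, rfl⟩
      obtain ⟨z, hz⟩ : ∃ z, z = ∏ p ∈ s, f p := ⟨_, rfl⟩
      rw [← hx] at h1 h2
      rw [← hy, ← hz]
      rw [← h2, ← hy, ← hz] at h3
      rw [← hz] at h1
      -- z = f q * x * y, x ^ 2 < z, so z < (f q * y)^2
      have hx1 : 1 ≤ x := by rw [hx]; exact Finset.one_le_prod' fun p _ => hf1 p
      have hz1 : 1 ≤ z := by rw [hz]; exact Finset.one_le_prod' fun p _ => hf1 p
      have h5 : z ≤ (f q * y) ^ 2 := by
        have h6 : z * x ^ 2 ≤ (f q * y) ^ 2 * x ^ 2 := by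
          have h7 : (f q * y) ^ 2 * x ^ 2 = z ^ 2 := by rw [← h3]; ring
          rw [h7, pow_two z]
          exact Nat.mul_le_mul_left z h1.le
        exact Nat.le_of_mul_le_mul_right h6 (by positivity)
      calc z ≤ (f q * y) ^ 2 := h5
        _ ≤ (K * y) ^ 2 := Nat.pow_le_pow_left (Nat.mul_le_mul_right y h4) 2
        _ = K ^ 2 * y ^ 2 := by ring

end Pool.Agent.Lib.MP_6179b0_nt
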