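import Mathlib

/-!
# Supply of primes
-/

set_option autoImplicit false

namespace Pool.Agent.Lib.MP_6179b0_nt

open Finset Filter

theorem supply_pi : ∀ᶠ n : ℕ in atTop, (n : ℝ) / (2 * Real.log n) ≤ Nat.primeCounting n := by
  have h1 : (fun x : ℝ => Real.log x) =o[atTop] (fun x : ℝ => x) := Real.isLittleO_log_id_atTop
  have h2 := (h1.bound (c := 1 / 20) (by norm_num))
  have h3 := tendsto_natCast_atTop_atTop.eventually h2
  filter_upwards [h3, eventually_ge_atTop 20] with n hn hn20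
  have hnr : (20 : ℝ) ≤ n := by exact_mod_cast hn20
  have hlog : 0 < Real.log n := Real.log_pos (by linarith)
  rw [Real.norm_of_nonneg hlog.le, Real.norm_of_nonneg (by positivity)] at hn
  have h4 := Chebyshev.pi_ge n
  have h5 : Real.log (n + 1) ≤ Real.log 2 + Real.log n := by
    rw [← Real.log_mul (by norm_num) (by positivity)]
    exact Real.log_le_log (by positivity) (by linarith)
  have h6 := Real.log_two_gt_d9
  have h7 := Real.log_two_lt_d9
  refine le_trans ?_ h4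
  rw [div_le_div_iff₀ (by positivity) hlog]
  have h8 : (n : ℝ) / 2 ≤ n * Real.log 2 - Real.log (n + 1) := by nlinarith
  nlinarith

theorem supply_omega (Λ : Finset ℕ) (hΛ : ∀ ℓ ∈ Λ, ℓ.Prime) (m : ℤ) (hm : m ≠ 0) (K : ℕ)
    (hK : |m| < 2 ^ K) : (Λ.filter (fun ℓ : ℕ => (ℓ : ℤ) ∣ m)).card ≤ K := by
  obtain ⟨T, hT⟩ : ∃ T, T = Λ.filter (fun ℓ : ℕ => (ℓ : ℤ) ∣ m) := ⟨_, rfl⟩
  rw [← hT]
  have h1 : ∏ ℓ ∈ T, ℓ ∣ m.natAbs := by
    rw [hT]
    refine Finset.prod_primes_dvd _ (fun ℓ hℓ => ?_) (fun ℓ hℓ => ?_)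
    · exact (hΛ ℓ (Finset.mem_filter.1 hℓ).1).prime
    · exact Int.natCast_dvd.1 (Finset.mem_filter.1 hℓ).2
  have h2 : 2 ^ T.card ≤ ∏ ℓ ∈ T, ℓ := by
    rw [← Finset.prod_const]
    refine Finset.prod_le_prod' fun ℓ hℓ => ?_
    rw [hT] at hℓ
    exact (hΛ ℓ (Finset.mem_filter.1 hℓ).1).two_le
  have h3 : ∏ ℓ ∈ T, ℓ ≤ m.natAbs := Nat.le_of_dvd (Int.natAbs_pos.2 hm) h1
  have h4 : m.natAbs < 2 ^ K := by
    have : ((m.natAbs : ℕ) : ℤ) < 2 ^ K := by rw [Int.natCast_natAbs]; exact hK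
    exact_mod_cast this
  have h5 : 2 ^ T.card < 2 ^ K := by omega
  exact ((Nat.pow_lt_pow_iff_right (by norm_num : 1 < 2)).1 h5).le

theorem supply (c : ℕ) (hc : 3 ≤ c) : ∃ K₀ : ℕ, ∀ K : ℕ, K₀ ≤ K → ∀ M : ℤ, M ≠ 0 → |M| < 2 ^ (6 * K) →
    ∃ Λ : Finset ℕ, (∀ ℓ ∈ Λ, ℓ.Prime ∧ ℓ ≠ 2 ∧ ¬ (ℓ : ℤ) ∣ M ∧ ℓ ≤ K ^ c) ∧ K ^ (c - 1) ≤ Λ.card := by
  have hpow : Tendsto (fun K : ℕ => K ^ c) atTop atTop := tendsto_pow_atTop (by omega)
  have h1 := hpow.eventually supply_pi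
  have h2 : (fun x : ℝ => Real.log x) =o[atTop] (fun x : ℝ => x) := Real.isLittleO_log_id_atTop
  have h3 := tendsto_natCast_atTop_atTop.eventually
    (h2.bound (c := 1 / (4 * (c : ℝ))) (by positivity))
  obtain ⟨K₀, hK₀⟩ := (h1.and (h3.and (eventually_ge_atTop 8))).exists_forall_of_atTop
  refine ⟨K₀, fun K hK M hM hMK => ?_⟩
  obtain ⟨g1, g2, g3⟩ := hK₀ K hK
  have hKr : (8 : ℝ) ≤ K := by exact_mod_cast g3
  have hlog : 0 < Real.log K := Real.log_pos (by linarith)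
  rw [Real.norm_of_nonneg hlog.le, Real.norm_of_nonneg (by positivity)] at g2
  obtain ⟨Λ, hΛ⟩ : ∃ Λ : Finset ℕ, Λ = ((Finset.range (K ^ c + 1)).filter Nat.Prime).filter
    (fun ℓ : ℕ => ¬ (ℓ = 2) ∧ ¬ (ℓ : ℤ) ∣ M) := ⟨_, rfl⟩
  refine ⟨Λ, ?_, ?_⟩
  · intro ℓ hℓ
    rw [hΛ, Finset.mem_filter, Finset.mem_filter, Finset.mem_range] at hℓ
    exact ⟨hℓ.1.2, hℓ.2.1, hℓ.2.2, by omega⟩
  · obtain ⟨P, hP⟩ : ∃ P : Finset ℕ, P = (Finset.range (K ^ c + 1)).filter Nat.Prime := ⟨_, rfl⟩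
    have hPc : P.card = Nat.primeCounting (K ^ c) := by
      rw [hP, Nat.primeCounting, Nat.primeCounting', Nat.count_eq_card_filter_range]
    have hPp : ∀ ℓ ∈ P, ℓ.Prime := by
      intro ℓ hℓ
      rw [hP, Finset.mem_filter] at hℓ
      exact hℓ.2
    rw [← hP] at hΛ
    have h4 : P.card ≤ Λ.card + 1 + 6 * K := by
      have hsub : P ⊆ Λ ∪ ({2} ∪ P.filter (fun ℓ : ℕ => (ℓ : ℤ) ∣ M)) := by
        intro ℓ hℓ
        rw [Finset.mem_union, Finset.mem_union, Finset.mem_singleton, Finset.mem_filter]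
        by_cases e1 : ℓ = 2
        · right; left; exact e1
        · by_cases e2 : (ℓ : ℤ) ∣ M
          · right; right; exact ⟨hℓ, e2⟩
          · left
            rw [hΛ, Finset.mem_filter]
            exact ⟨hℓ, e1, e2⟩
      refine le_trans (Finset.card_le_card hsub) (le_trans (Finset.card_union_le _ _) ?_)
      have h5 := Finset.card_union_le {2} (P.filter (fun ℓ : ℕ => (ℓ : ℤ) ∣ M))
      rw [Finset.card_singleton] at h5
      have h6 := supply_omega P hPp M hM (6 * K) hMK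
      omega
    -- lower bound for P.card
    have h7 : 2 * K ^ (c - 1) ≤ P.card := by
      rw [hPc]
      have hcr : (3 : ℝ) ≤ c := by exact_mod_cast hc
      have e1 : (2 : ℝ) * (K : ℝ) ^ (c - 1) ≤ ((K ^ c : ℕ) : ℝ) / (2 * Real.log ((K ^ c : ℕ) : ℝ)) := by
        push_cast
        rw [Real.log_pow]
        rw [le_div_iff₀ (by positivity)]
        have e2 : (K : ℝ) ^ c = (K : ℝ) ^ (c - 1) * K := by
          rw [← pow_succ]; congr 1; omega
        rw [e2]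
        have e3 : 4 * ((c : ℝ) * Real.log K) ≤ K := by
          have : Real.log K ≤ 1 / (4 * (c : ℝ)) * K := g2
          have e4 : (4 * (c : ℝ)) * Real.log K ≤ (4 * (c : ℝ)) * (1 / (4 * (c : ℝ)) * K) :=
            mul_le_mul_of_nonneg_left this (by positivity)
          have e5 : (4 * (c : ℝ)) * (1 / (4 * (c : ℝ)) * K) = K := by field_simp
          linarith
        have e6 : (0 : ℝ) ≤ (K : ℝ) ^ (c - 1) := by positivity
        nlinarith
      exact_mod_cast le_trans e1 g1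
    have h8 : 7 * K ≤ K ^ (c - 1) := by
      calc 7 * K ≤ K * K := Nat.mul_le_mul_right K (by omega)
        _ = K ^ 2 := (pow_two K).symm
        _ ≤ K ^ (c - 1) := Nat.pow_le_pow_right (by omega) (by omega)
    omega

end Pool.Agent.Lib.MP_6179b0_nt
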