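import Mathlib
import Pool.Agent.Lib.MP_6179b0_nt.Count
import Pool.Agent.Lib.MP_6179b0_nt.Split
import Pool.Agent.Lib.MP_6179b0_nt.Supply
import Pool.Agent.Lib.MP_6179b0_nt.SetA

/-!
# The main inequality
-/

set_option autoImplicit false

namespace Pool.Agent.Lib.MP_6179b0_nt

open Finset

/-- positive and negative divisors -/
def main_dv (n : ℕ) : Finset ℤ :=
  (n.divisors.image (fun d : ℕ => (d : ℤ))) ∪ (n.divisors.image (fun d : ℕ => -(d : ℤ)))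

def main_pdv (n : ℕ) : Finset ℤ := n.divisors.image (fun d : ℕ => (d : ℤ))

theorem main_mem_dv (n : ℕ) (hn : n ≠ 0) (x : ℤ) : x ∈ main_dv n ↔ x ∣ (n : ℤ) := by
  unfold main_dv
  simp only [Finset.mem_union, Finset.mem_image, Nat.mem_divisors]
  constructor
  · rintro (⟨d, ⟨h1, _⟩, h3⟩ | ⟨d, ⟨h1, _⟩, h3⟩)
    · rw [← h3]; exact_mod_cast h1
    · rw [← h3, neg_dvd]; exact_mod_cast h1
  · intro h
    have h1 : x.natAbs ∣ n := by
      have := Int.natAbs_dvd_natAbs.2 h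
      simpa using this
    rcases le_total 0 x with hx | hx
    · left
      exact ⟨x.natAbs, ⟨h1, hn⟩, by simpa using abs_of_nonneg hx⟩
    · right
      refine ⟨x.natAbs, ⟨h1, hn⟩, ?_⟩
      have : ((x.natAbs : ℕ) : ℤ) = |x| := Int.natCast_natAbs x
      rw [this, abs_of_nonpos hx, neg_neg]

theorem main_mem_pdv (n : ℕ) (x : ℤ) (hx : x ∈ main_pdv n) : x ∣ (n : ℤ) ∧ 0 < x := by
  unfold main_pdv at hx
  rw [Finset.mem_image] at hx
  obtain ⟨d, hd, rfl⟩ := hx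
  refine ⟨by exact_mod_cast (Nat.mem_divisors.1 hd).1, ?_⟩
  have := Nat.pos_of_mem_divisors hd
  exact_mod_cast this

theorem main_card_dv (n : ℕ) : (main_dv n).card = 2 * n.divisors.card := by
  unfold main_dv
  rw [Finset.card_union_of_disjoint, Finset.card_image_of_injective _ Nat.cast_injective,
    Finset.card_image_of_injective, two_mul]
  · intro x y hxy
    simpa using hxy
  · rw [Finset.disjoint_left]
    intro x hx hy
    rw [Finset.mem_image] at hx hy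
    obtain ⟨d, hd, rfl⟩ := hx
    obtain ⟨e, he, h⟩ := hy
    have h1 := Nat.pos_of_mem_divisors hd
    have h2 := Nat.pos_of_mem_divisors he
    omega

theorem main_card_pdv (n : ℕ) : (main_pdv n).card = n.divisors.card := by
  unfold main_pdv
  rw [Finset.card_image_of_injective _ Nat.cast_injective]

/-- a divisor of a product of coprime numbers factors -/
theorem main_factor (b₁ b₂ : ℕ) (h1 : b₁ ≠ 0) (h2 : b₂ ≠ 0) (n : ℤ) (hn : n ∣ ((b₁ * b₂ : ℕ) : ℤ)) :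
    ∃ x ∈ main_dv b₁, ∃ y ∈ main_pdv b₂, x * y = n := by
  have h0 : n.natAbs ∣ b₁ * b₂ := by
    have := Int.natAbs_dvd_natAbs.2 hn
    rwa [Int.natAbs_natCast] at this
  obtain ⟨d₁, d₂, hd₁, hd₂, hd⟩ := (Nat.dvd_mul).1 h0
  have hd2 : (d₂ : ℤ) ∈ main_pdv b₂ := by
    unfold main_pdv
    rw [Finset.mem_image]
    exact ⟨d₂, Nat.mem_divisors.2 ⟨hd₂, h2⟩, rfl⟩
  rcases le_total 0 n with hn0 | hn0
  · refine ⟨(d₁ : ℤ), ?_, (d₂ : ℤ), hd2, ?_⟩
    · rw [main_mem_dv b₁ h1]; exact_mod_cast hd₁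
    · rw [← Nat.cast_mul, hd, Int.natCast_natAbs, abs_of_nonneg hn0]
  · refine ⟨-(d₁ : ℤ), ?_, (d₂ : ℤ), hd2, ?_⟩
    · rw [main_mem_dv b₁ h1, neg_dvd]; exact_mod_cast hd₁
    · rw [neg_mul, ← Nat.cast_mul, hd, Int.natCast_natAbs, abs_of_nonpos hn0, neg_neg]

theorem main_abs_add (b n : ℤ) (hb : b ≠ 0) (hn : n ∣ b) : |n + b / n| ≤ |b| + 1 := by
  obtain ⟨k, rfl⟩ := hn
  have hn0 : n ≠ 0 := by rintro rfl; simp at hb
  have hk0 : k ≠ 0 := by rintro rfl; simp at hb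
  rw [Int.mul_ediv_cancel_left _ hn0, abs_mul]
  refine le_trans (abs_add_le _ _) ?_
  have h1 : 1 ≤ |n| := Int.one_le_abs hn0
  have h2 : 1 ≤ |k| := Int.one_le_abs hk0
  nlinarith

/-- the elements of `A a b` for which `n + b / n + a` is not `0`, counted through a coprime factorization -/
theorem main_core {C κ : ℝ} (h : Bnd C κ) (hC : 0 ≤ C) (hκ : 0 ≤ κ) (a b : ℤ) (hb : b ≠ 0)
    (K c t : ℕ) (ht : Even t) (hK : 1 ≤ K) (hbK : |b| + 2 ≤ 2 ^ K)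
    (ha : |a| ≤ (|b| + 1) * (|b| + 2)) (Λ : Finset ℕ)
    (hΛ : ∀ ℓ ∈ Λ, ℓ.Prime ∧ ℓ ≠ 2 ∧ ¬ (ℓ : ℤ) ∣ b * (a ^ 2 - 4 * b) ∧ ℓ ≤ K ^ c)
    (hcard : K ^ (c - 1) ≤ Λ.card) (hcard2 : 2 * K ≤ Λ.card)
    (b₁ b₂ : ℕ) (hbb : b₁ * b₂ = b.natAbs)
    (hP₁ : Λ.card ^ t ≤ b₁.divisors.card) (hP₂ : Λ.card ^ t ≤ b₂.divisors.card) :
    ((A a b).ncard : ℝ) * ((K : ℝ) ^ (c - 1) / 2) ^ t ≤
      4 * (b₁.divisors.card * b₂.divisors.card) * (C * ((K : ℝ) ^ c) ^ κ * (2 * K)) ^ t +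
        2 * ((K : ℝ) ^ (c - 1) / 2) ^ t := by
  classical
  have hb0 : b.natAbs ≠ 0 := by simpa using hb
  have hb1 : b₁ ≠ 0 := by rintro rfl; simp at hbb; omega
  have hb2 : b₂ ≠ 0 := by rintro rfl; simp at hbb; omega
  have hbd : ∀ n : ℤ, n ∣ b ↔ n ∣ ((b₁ * b₂ : ℕ) : ℤ) := by
    intro n
    rw [hbb, Int.dvd_natAbs]
  have hdv1 : ∀ n ∈ main_dv b₁, n ∣ b := by
    intro n hn
    rw [hbd]; push_cast
    exact dvd_mul_of_dvd_left ((main_mem_dv b₁ hb1 n).1 hn) _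
  have hdv2 : ∀ n ∈ main_pdv b₂, n ∣ b := by
    intro n hn
    rw [hbd]; push_cast
    exact dvd_mul_of_dvd_right (main_mem_pdv b₂ n hn).1 _
  have hdv3 : ∀ n₁ ∈ main_dv b₁, ∀ n₂ ∈ main_pdv b₂, n₁ * n₂ ∣ b := by
    intro n₁ h1 n₂ h2
    rw [hbd]; push_cast
    exact mul_dvd_mul ((main_mem_dv b₁ hb1 n₁).1 h1) (main_mem_pdv b₂ n₂ h2).1
  have hprime : ∀ ℓ ∈ Λ, ℓ.Prime := fun ℓ hℓ => (hΛ ℓ hℓ).1
  have habs : ∀ n : ℤ, n ∣ b → |n| ≤ |b| := fun n hn => by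
    have := Int.le_of_dvd (abs_pos.2 hb) ((abs_dvd_abs n b).2 hn)
    exact this
  have hdiff : ∀ n n' : ℤ, n ∣ b → n' ∣ b → n ≠ n' →
      (Λ.filter (fun ℓ : ℕ => (ℓ : ℤ) ∣ n - n')).card ≤ 2 * K := by
    intro n n' hn hn' hne
    have h1 : |n - n'| < 2 ^ (K + 1) := by
      calc |n - n'| ≤ |n| + |n'| := abs_sub _ _
        _ ≤ |b| + |b| := add_le_add (habs n hn) (habs n' hn')
        _ < 2 ^ (K + 1) := by rw [pow_succ]; linarith
    refine le_trans (omega_le Λ hprime (n - n') (sub_ne_zero.2 hne) (K + 1) h1) ?_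
    omega
  -- the pairs
  set S : Finset (ℤ × ℤ) := (main_dv b₁ ×ˢ main_pdv b₂).filter
    (fun z => IsSquare (z.1 * z.2 + b / (z.1 * z.2) + a) ∧ z.1 * z.2 + b / (z.1 * z.2) + a ≠ 0)
    with hS
  have hsub : A a b ⊆ {n : ℤ | n ∣ b ∧ n + b / n = -a} ∪
      ((S.image (fun z : ℤ × ℤ => z.1 * z.2) : Finset ℤ) : Set ℤ) := by
    intro n hn
    obtain ⟨hn1, hn2⟩ := hn
    by_cases h0 : n + b / n + a = 0
    · left
      exact ⟨hn1, by linarith⟩
    · right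
      rw [hbd] at hn1
      obtain ⟨x, hx, y, hy, hxy⟩ := main_factor b₁ b₂ hb1 hb2 n hn1
      rw [Finset.coe_image]
      refine ⟨(x, y), ?_, hxy⟩
      rw [Finset.mem_coe, hS, Finset.mem_filter, Finset.mem_product]
      refine ⟨⟨hx, hy⟩, ?_, ?_⟩
      · simpa [hxy] using hn2
      · simpa [hxy] using h0
  have hfin0 : {n : ℤ | n ∣ b ∧ n + b / n = -a}.Finite := by
    refine Set.Finite.subset (s := ((main_dv b.natAbs : Finset ℤ) : Set ℤ))
      (Finset.finite_toSet _) ?_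
    intro n hn
    rw [Finset.mem_coe, main_mem_dv _ hb0, Int.dvd_natAbs]
    exact hn.1
  have hcardA : (A a b).ncard ≤ 2 + S.card := by
    refine le_trans (Set.ncard_le_ncard hsub (hfin0.union (Finset.finite_toSet _))) ?_
    refine le_trans (Set.ncard_union_le _ _) ?_
    refine Nat.add_le_add (zero_square a b hb (-a)) ?_
    rw [Set.ncard_coe_finset]
    exact Finset.card_image_le
  have hm : ∀ z ∈ S, ∃ m : ℤ, z.1 * z.2 + b / (z.1 * z.2) + a = m * m ∧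
      2 * (Λ.filter (fun ℓ : ℕ => (ℓ : ℤ) ∣ m)).card ≤ Λ.card := by
    intro z hz
    rw [hS, Finset.mem_filter, Finset.mem_product] at hz
    obtain ⟨⟨hz1, hz2⟩, ⟨m, hm1⟩, hm2⟩ := hz
    refine ⟨m, hm1, ?_⟩
    have hm0 : m ≠ 0 := by
      rintro rfl
      exact hm2 (by rw [hm1]; ring)
    have hlt : |m| < 2 ^ K := by
      have h1 : |z.1 * z.2 + b / (z.1 * z.2)| ≤ |b| + 1 :=
        main_abs_add b _ hb (hdv3 _ hz1 _ hz2)
      have h2 : m * m ≤ (|b| + 1) * (|b| + 3) := by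
        rw [← hm1]
        have h3 := le_abs_self (z.1 * z.2 + b / (z.1 * z.2))
        have h4 := le_abs_self a
        nlinarith
      have h5 : 0 ≤ |b| := abs_nonneg b
      have h6 : |m| * |m| < 2 ^ K * 2 ^ K := by
        rw [abs_mul_abs_self]
        nlinarith
      exact lt_of_mul_self_lt_mul_self₀ (by positivity) h6
    have := omega_le Λ hprime m hm0 K hlt
    omega
  have hc := count h hC hκ a b Λ (K ^ c) (2 * K) t ht
    (fun ℓ hℓ => ⟨(hΛ ℓ hℓ).1, (hΛ ℓ hℓ).2.1,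
      fun h1 => (hΛ ℓ hℓ).2.2.1 (dvd_mul_of_dvd_left h1 _),
      fun h1 => (hΛ ℓ hℓ).2.2.1 (dvd_mul_of_dvd_right h1 _), (hΛ ℓ hℓ).2.2.2⟩)
    (main_dv b₁) (main_pdv b₂) hdv1 hdv2 hdv3
    (fun n hn n' hn' hne => hdiff n n' (hdv1 n hn) (hdv1 n' hn') hne)
    (fun n hn n' hn' hne => hdiff n n' (hdv2 n hn) (hdv2 n' hn') hne)
    (by rw [main_card_dv]; omega) (by rw [main_card_pdv]; exact hP₂) (by omega) S
    (Finset.filter_subset _ _) hm
  rw [main_card_dv, main_card_pdv] at hc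
  have hq0 : (0 : ℝ) ≤ ((K : ℝ) ^ (c - 1) / 2) ^ t := by positivity
  have hq1 : ((K : ℝ) ^ (c - 1) / 2) ^ t ≤ ((Λ.card : ℝ) / 2) ^ t := by
    refine pow_le_pow_left₀ (by positivity) ?_ t
    have : ((K ^ (c - 1) : ℕ) : ℝ) ≤ (Λ.card : ℝ) := by exact_mod_cast hcard
    push_cast at this
    linarith
  have h7 : ((A a b).ncard : ℝ) ≤ 2 + (S.card : ℝ) := by exact_mod_cast hcardA
  calc ((A a b).ncard : ℝ) * ((K : ℝ) ^ (c - 1) / 2) ^ t
      ≤ (2 + (S.card : ℝ)) * ((K : ℝ) ^ (c - 1) / 2) ^ t :=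
        mul_le_mul_of_nonneg_right h7 hq0
    _ = (S.card : ℝ) * ((K : ℝ) ^ (c - 1) / 2) ^ t + 2 * ((K : ℝ) ^ (c - 1) / 2) ^ t := by ring
    _ ≤ (S.card : ℝ) * ((Λ.card : ℝ) / 2) ^ t + 2 * ((K : ℝ) ^ (c - 1) / 2) ^ t := by
        gcongr
    _ ≤ _ := by
        refine add_le_add ?_ le_rfl
        refine le_trans hc (le_of_eq ?_)
        push_cast
        ring

/-- pure inequality: conversion of the moment bound -/
theorem main_ineq (x C κ β γ : ℝ) (c s : ℕ) (n d X : ℝ) (hx : 1 ≤ x) (hC : 0 ≤ C) (hCx : 4 * C ≤ x)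
    (hγ : γ = 1 - κ) (hβ : β = c * γ - 3) (hβ1 : 1 ≤ β) (hc : 3 ≤ c) (hγ1 : γ ≤ 1) (hd : 1 ≤ d)
    (hX1 : √d ≤ x * X) (hX2 : X ≤ (x ^ (2 * c)) ^ (s + 1))
    (hmain : n * (x ^ (c - 1) / 2) ^ (2 * s) ≤
      4 * d * (C * (x ^ c) ^ κ * (2 * x)) ^ (2 * s) + 2 * (x ^ (c - 1) / 2) ^ (2 * s)) :
    n ≤ 6 * d ^ (1 - β / (2 * c)) * x ^ (3 * c) := by
  have hx0 : 0 < x := by linarith
  have hc0 : (0 : ℝ) < c := by positivity
  have hq : 0 < (x ^ (c - 1) / 2) ^ (2 * s) := by positivity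
  have hXpos : 0 < X := by
    have h1 : 1 ≤ √d := by rw [Real.one_le_sqrt]; exact hd
    by_contra h
    push Not at h
    nlinarith
  -- the ratio
  have hr : C * (x ^ c) ^ κ * (2 * x) ≤ x ^ (-β) * (x ^ (c - 1) / 2) := by
    have e1 : ((x ^ c : ℝ)) ^ κ = x ^ ((c : ℝ) * κ) := by
      rw [← Real.rpow_natCast x c, ← Real.rpow_mul hx0.le]
    have e2 : (x ^ (c - 1) : ℝ) = x ^ ((c : ℝ) - 1) := by
      rw [← Real.rpow_natCast x (c - 1), Nat.cast_sub (by omega)]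
      norm_num
    rw [e1, e2]
    have e3 : x ^ (-β) * (x ^ ((c : ℝ) - 1) / 2) = x * x ^ ((c : ℝ) * κ) * x / 2 := by
      have : x * x ^ ((c : ℝ) * κ) * x = x ^ (-β) * x ^ ((c : ℝ) - 1) := by
        rw [← Real.rpow_add hx0]
        nth_rw 1 [← Real.rpow_one x]
        nth_rw 3 [← Real.rpow_one x]
        rw [← Real.rpow_add hx0, ← Real.rpow_add hx0]
        congr 1
        rw [hβ, hγ]; ring
      rw [← mul_div_assoc, ← this]
    rw [e3]
    have e4 : 0 ≤ x ^ ((c : ℝ) * κ) := Real.rpow_nonneg hx0.le _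
    nlinarith [mul_nonneg e4 hx0.le]
  have hr2 : (C * (x ^ c) ^ κ * (2 * x)) ^ (2 * s) ≤
      (x ^ (-β)) ^ (2 * s) * (x ^ (c - 1) / 2) ^ (2 * s) := by
    rw [← mul_pow]
    exact pow_le_pow_left₀ (by positivity) hr _
  have h1 : n ≤ 4 * d * (x ^ (-β)) ^ (2 * s) + 2 := by
    have h2 : n * (x ^ (c - 1) / 2) ^ (2 * s) ≤
        (4 * d * (x ^ (-β)) ^ (2 * s) + 2) * (x ^ (c - 1) / 2) ^ (2 * s) := by
      refine le_trans hmain ?_
      have : 4 * d * (C * (x ^ c) ^ κ * (2 * x)) ^ (2 * s) ≤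
          4 * d * ((x ^ (-β)) ^ (2 * s) * (x ^ (c - 1) / 2) ^ (2 * s)) :=
        mul_le_mul_of_nonneg_left hr2 (by linarith)
      linarith
    exact le_of_mul_le_mul_right h2 hq
  -- the power
  have h3 : (x ^ (-β)) ^ (2 * s) ≤ d ^ (-(β / (2 * c))) * x ^ (3 * c) := by
    have e1 : (x ^ (-β)) ^ (2 * s) = ((x ^ (2 * c)) ^ (s + 1)) ^ (-(β / c)) * x ^ (2 * β) := by
      rw [← Real.rpow_natCast (x ^ (-β)) (2 * s), ← Real.rpow_mul hx0.le, ← pow_mul,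
        ← Real.rpow_natCast x, ← Real.rpow_mul hx0.le, ← Real.rpow_add hx0]
      congr 1
      push_cast
      field_simp
      ring
    rw [e1]
    have e2 : ((x ^ (2 * c)) ^ (s + 1)) ^ (-(β / c)) ≤ X ^ (-(β / c)) :=
      Real.rpow_le_rpow_of_nonpos hXpos hX2 (by
        have : 0 ≤ β / c := by positivity
        linarith)
    have e3 : X ^ (-(β / c)) ≤ (√d / x) ^ (-(β / c)) := by
      refine Real.rpow_le_rpow_of_nonpos (by positivity) ?_ (by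
        have : 0 ≤ β / c := by positivity
        linarith)
      rw [div_le_iff₀ hx0]; linarith
    have e4 : (√d / x) ^ (-(β / c)) = d ^ (-(β / (2 * c))) * x ^ (β / c) := by
      rw [Real.div_rpow (Real.sqrt_nonneg _) hx0.le, Real.sqrt_eq_rpow, ← Real.rpow_mul (by linarith),
        Real.rpow_neg hx0.le (β / c), div_inv_eq_mul]
      congr 2
      field_simp
    have e5 : x ^ (β / c) * x ^ (2 * β) ≤ x ^ (3 * c) := by
      rw [← Real.rpow_add hx0, ← Real.rpow_natCast x]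
      refine Real.rpow_le_rpow_of_exponent_le hx ?_
      have hβc : β ≤ c := by rw [hβ]; nlinarith
      have : β / c ≤ 1 := by rw [div_le_one hc0]; exact hβc
      push_cast
      have h3c : (3 : ℝ) ≤ c := by exact_mod_cast hc
      linarith
    calc ((x ^ (2 * c)) ^ (s + 1)) ^ (-(β / c)) * x ^ (2 * β)
        ≤ (d ^ (-(β / (2 * c))) * x ^ (β / c)) * x ^ (2 * β) :=
          mul_le_mul_of_nonneg_right (by rw [← e4]; exact le_trans e2 e3)
            (Real.rpow_nonneg hx0.le _)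
      _ = d ^ (-(β / (2 * c))) * (x ^ (β / c) * x ^ (2 * β)) := by ring
      _ ≤ _ := mul_le_mul_of_nonneg_left e5 (Real.rpow_nonneg (by linarith) _)
  have h4 : d * d ^ (-(β / (2 * c))) = d ^ (1 - β / (2 * c)) := by
    nth_rw 1 [← Real.rpow_one d]
    rw [← Real.rpow_add (by linarith)]
    congr 1
  have h5 : 1 ≤ d ^ (1 - β / (2 * c)) * x ^ (3 * c) := by
    have hβc : β ≤ c := by rw [hβ]; nlinarith
    have h6 : β / (2 * c) ≤ 1 := by rw [div_le_one (by positivity)]; linarith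
    have h7 : 1 ≤ d ^ (1 - β / (2 * c)) := Real.one_le_rpow hd (by linarith)
    have h8 : 1 ≤ x ^ (3 * c) := one_le_pow₀ hx
    nlinarith
  calc n ≤ 4 * d * (x ^ (-β)) ^ (2 * s) + 2 := h1
    _ ≤ 4 * d * (d ^ (-(β / (2 * c))) * x ^ (3 * c)) + 2 := by
        have := mul_le_mul_of_nonneg_left h3 (show 0 ≤ 4 * d by linarith)
        linarith
    _ = 4 * (d ^ (1 - β / (2 * c)) * x ^ (3 * c)) + 2 := by rw [← h4]; ring
    _ ≤ 6 * (d ^ (1 - β / (2 * c)) * x ^ (3 * c)) := by linarith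
    _ = _ := by ring

theorem main_ncard_le (a b : ℤ) (hb : b ≠ 0) : (A a b).ncard ≤ 2 * b.natAbs.divisors.card := by
  have hb0 : b.natAbs ≠ 0 := by simpa using hb
  rw [← main_card_dv, ← Set.ncard_coe_finset]
  refine Set.ncard_le_ncard ?_ (Finset.finite_toSet _)
  intro n hn
  rw [Finset.mem_coe, main_mem_dv _ hb0, Int.dvd_natAbs]
  exact hn.1

/-- the size parameter -/
theorem main_size (b : ℤ) (hb : b ≠ 0) : ∃ K : ℕ, 1 ≤ K ∧ |b| + 2 ≤ 2 ^ K ∧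
    (K : ℝ) ≤ 4 * (1 + Real.log |(b : ℝ)|) := by
  have h1 : 1 ≤ |b| := Int.one_le_abs hb
  obtain ⟨m, hm⟩ : ∃ m : ℕ, (m : ℤ) = |b| := ⟨b.natAbs, Int.natCast_natAbs b⟩
  have hm1 : 1 ≤ m := by omega
  refine ⟨Nat.clog 2 (m + 2), ?_, ?_, ?_⟩
  · exact Nat.clog_pos (by norm_num) (by omega)
  · rw [← hm]
    have := Nat.le_pow_clog (b := 2) (by norm_num) (m + 2)
    exact_mod_cast this
  · have h2 : 2 ^ (Nat.clog 2 (m + 2) - 1) < m + 2 := Nat.pow_pred_clog_lt_self (b := 2) (by norm_num) (x := m + 2) (by omega)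
    have h3 : 1 ≤ Nat.clog 2 (m + 2) := Nat.clog_pos (by norm_num) (by omega)
    set k := Nat.clog 2 (m + 2) with hk
    have h4 : (2 : ℝ) ^ (k - 1) < m + 2 := by exact_mod_cast h2
    have h5 : Real.log ((2 : ℝ) ^ (k - 1)) < Real.log (m + 2) := Real.log_lt_log (by positivity) h4
    rw [Real.log_pow, Nat.cast_sub h3] at h5
    have hmr : (1 : ℝ) ≤ m := by exact_mod_cast hm1
    have h6 : Real.log (m + 2) ≤ Real.log 3 + Real.log m := by
      rw [← Real.log_mul (by norm_num) (by positivity)]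
      exact Real.log_le_log (by positivity) (by linarith)
    have h7 : |(b : ℝ)| = m := by
      have : ((|b| : ℤ) : ℝ) = m := by rw [← hm]; simp
      rwa [Int.cast_abs] at this
    rw [h7]
    have h8 : 0 ≤ Real.log m := Real.log_nonneg hmr
    have h9 := Real.log_two_gt_d9
    have h10 : Real.log 3 ≤ 2 * Real.log 2 := by
      rw [show (2 : ℝ) * Real.log 2 = Real.log (2 ^ 2) by rw [Real.log_pow]; norm_num]
      exact Real.log_le_log (by norm_num) (by norm_num)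
    have h11 : ((k : ℝ) - 1) * Real.log 2 < 2 * Real.log 2 + Real.log m := by
      push_cast at h5; linarith
    by_contra hcon
    push Not at hcon
    nlinarith

theorem main {C κ : ℝ} (h : Bnd C κ) (hC : 0 ≤ C) (hκ : 0 ≤ κ) (hκ1 : κ < 1) (ε : ℝ) (hε : 0 < ε) :
    ∃ M : ℝ, ∀ a b : ℤ, b ≠ 0 → a ^ 2 ≠ 4 * b →
      ((A a b).ncard : ℝ) ≤ M * (b.natAbs.divisors.card : ℝ) ^ ((1 + κ) / 2 + ε) *
        (1 + Real.log |(b : ℝ)|) ^ M := by
  obtain ⟨c, hc⟩ : ∃ c : ℕ, 3 ≤ c ∧ (4 : ℝ) ≤ c * (1 - κ) ∧ 3 / (2 * (c : ℝ)) ≤ ε := by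
    obtain ⟨c, hc⟩ := exists_nat_ge (max 3 (max (4 / (1 - κ)) (3 / (2 * ε))))
    have h1 : (3 : ℝ) ≤ c := le_trans (le_max_left _ _) hc
    have h2 : 4 / (1 - κ) ≤ c := le_trans (le_trans (le_max_left _ _) (le_max_right _ _)) hc
    have h3 : 3 / (2 * ε) ≤ c := le_trans (le_trans (le_max_right _ _) (le_max_right _ _)) hc
    refine ⟨c, by exact_mod_cast h1, ?_, ?_⟩
    · rwa [div_le_iff₀ (by linarith)] at h2
    · rw [div_le_iff₀ (by positivity)] at h3 ⊢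
      linarith
  obtain ⟨hc3, hcγ, hcε⟩ := hc
  obtain ⟨K₀, hK₀⟩ := supply c hc3
  obtain ⟨K₁, hK₁⟩ := exists_nat_ge (4 * C)
  -- threshold
  obtain ⟨K₂, hK₂⟩ : ∃ K₂ : ℕ, K₂ = max (max K₀ K₁) 2 := ⟨_, rfl⟩
  obtain ⟨M, hM⟩ : ∃ M : ℝ, M = max ((2 : ℝ) * 2 ^ K₂) (6 * 4 ^ (3 * c) + 3 * (c : ℝ)) := ⟨_, rfl⟩
  have hM1 : (2 : ℝ) * 2 ^ K₂ ≤ M := by rw [hM]; exact le_max_left _ _
  have hM2 : (6 : ℝ) * 4 ^ (3 * c) + 3 * (c : ℝ) ≤ M := by rw [hM]; exact le_max_right _ _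
  have hM3 : (6 : ℝ) * 4 ^ (3 * c) ≤ M := by
    have : (0 : ℝ) ≤ 3 * c := by positivity
    linarith
  have hM4 : (3 * c : ℝ) ≤ M := by
    have : (0 : ℝ) ≤ 6 * 4 ^ (3 * c) := by positivity
    linarith
  have hMpos : 2 ≤ M := by
    have : (1 : ℝ) ≤ 2 ^ K₂ := one_le_pow₀ (by norm_num)
    linarith
  refine ⟨M, fun a b hb hab => ?_⟩
  have hb0 : b.natAbs ≠ 0 := by simpa using hb
  have hbr : (1 : ℝ) ≤ |(b : ℝ)| := by
    have : ((1 : ℤ) : ℝ) ≤ ((|b| : ℤ) : ℝ) := by exact_mod_cast Int.one_le_abs hb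
    simpa using this
  have hlog : 0 ≤ Real.log |(b : ℝ)| := Real.log_nonneg hbr
  have hd1 : (1 : ℝ) ≤ (b.natAbs.divisors.card : ℝ) := by
    have : 1 ≤ b.natAbs.divisors.card :=
      Finset.card_pos.2 ⟨1, Nat.one_mem_divisors.2 hb0⟩
    exact_mod_cast this
  have hdexp : 1 ≤ (b.natAbs.divisors.card : ℝ) ^ ((1 + κ) / 2 + ε) :=
    Real.one_le_rpow hd1 (by positivity)
  have hlexp : 1 ≤ (1 + Real.log |(b : ℝ)|) ^ M := Real.one_le_rpow (by linarith) (by linarith)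
  have htriv : ∀ z : ℝ, z ≤ M → z ≤ M * (b.natAbs.divisors.card : ℝ) ^ ((1 + κ) / 2 + ε) *
        (1 + Real.log |(b : ℝ)|) ^ M := by
    intro z hz
    have h1 : M ≤ M * (b.natAbs.divisors.card : ℝ) ^ ((1 + κ) / 2 + ε) := by nlinarith
    have h2 : M * (b.natAbs.divisors.card : ℝ) ^ ((1 + κ) / 2 + ε) ≤
      M * (b.natAbs.divisors.card : ℝ) ^ ((1 + κ) / 2 + ε) *
        (1 + Real.log |(b : ℝ)|) ^ M := by
      refine le_mul_of_one_le_right (by linarith) hlexp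
    linarith
  obtain ⟨K, hK1, hbK, hKlog⟩ := main_size b hb
  rcases lt_or_ge K K₂ with hKlt | hKge
  · -- small
    refine htriv _ ?_
    refine le_trans ?_ hM1
    have h1 := main_ncard_le a b hb
    have h2 : b.natAbs.divisors.card ≤ b.natAbs := Nat.card_divisors_le_self _
    have h3 : b.natAbs ≤ 2 ^ K₂ := by
      have h4 : (b.natAbs : ℤ) ≤ 2 ^ K := by
        rw [Int.natCast_natAbs]; linarith
      have h5 : (2 : ℤ) ^ K ≤ 2 ^ K₂ := pow_le_pow_right₀ (by norm_num) hKlt.le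
      have h6 : (b.natAbs : ℤ) ≤ 2 ^ K₂ := le_trans h4 h5
      exact_mod_cast h6
    have h4 : (A a b).ncard ≤ 2 * 2 ^ K₂ := by omega
    exact_mod_cast h4
  rcases le_or_gt ((|b| + 1) * (|b| + 2)) |a| with ha | ha
  · refine htriv _ ?_
    have h1 := large_a a b hb ha
    have h2 : ((A a b).ncard : ℝ) ≤ 2 := by exact_mod_cast h1
    linarith
  have hKK₀ : K₀ ≤ K := le_trans (le_trans (le_max_left _ _) (le_max_left _ _)) (hK₂ ▸ hKge)
  have hKK₁ : K₁ ≤ K := le_trans (le_trans (le_max_right _ _) (le_max_left _ _)) (hK₂ ▸ hKge)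
  have hK2 : 2 ≤ K := le_trans (le_max_right _ _) (hK₂ ▸ hKge)
  -- primes
  have hdisc : a ^ 2 - 4 * b ≠ 0 := sub_ne_zero.2 hab
  have hMlt : |b * (a ^ 2 - 4 * b)| < 2 ^ (6 * K) := by
    have h0 : 0 ≤ |b| := abs_nonneg b
    have h1 : |a ^ 2 - 4 * b| ≤ |a| ^ 2 + 4 * |b| := by
      refine le_trans (abs_sub _ _) ?_
      rw [abs_pow, abs_mul]; norm_num
    have h2 : |a| ^ 2 ≤ ((|b| + 1) * (|b| + 2)) ^ 2 := pow_le_pow_left₀ (abs_nonneg a) ha.le 2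
    have h3 : (2 : ℤ) ^ (6 * K) = (2 ^ K) ^ 6 := by rw [← pow_mul, mul_comm]
    rw [h3, abs_mul]
    have h4 : |b| * |a ^ 2 - 4 * b| ≤ |b| * (((|b| + 1) * (|b| + 2)) ^ 2 + 4 * |b|) :=
      mul_le_mul_of_nonneg_left (by linarith) h0
    refine lt_of_le_of_lt h4 (lt_of_lt_of_le ?_ (pow_le_pow_left₀ (by linarith) hbK 6))
    generalize |b| = y at h0
    nlinarith [pow_nonneg h0 2, pow_nonneg h0 3, pow_nonneg h0 4, pow_nonneg h0 5, pow_nonneg h0 6]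
  obtain ⟨Λ, hΛ, hΛc⟩ := hK₀ K hKK₀ (b * (a ^ 2 - 4 * b)) (mul_ne_zero hb hdisc) hMlt
  have hΛle : Λ.card ≤ K ^ c := by
    have : Λ ⊆ Finset.Icc 1 (K ^ c) := by
      intro ℓ hℓ
      rw [Finset.mem_Icc]
      exact ⟨(hΛ ℓ hℓ).1.one_lt.le, (hΛ ℓ hℓ).2.2.2⟩
    have := Finset.card_le_card this
    simpa using this
  have hΛ2 : 2 * K ≤ Λ.card := by
    refine le_trans ?_ hΛc
    calc 2 * K ≤ K * K := Nat.mul_le_mul_right K hK2
      _ = K ^ 2 := (pow_two K).symm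
      _ ≤ K ^ (c - 1) := Nat.pow_le_pow_right hK1 (by omega)
  -- splitting
  have hbK2 : b.natAbs < 2 ^ K := by
    have : (b.natAbs : ℤ) < 2 ^ K := by rw [Int.natCast_natAbs]; linarith
    exact_mod_cast this
  obtain ⟨b₁, b₂, hbb, hcop, hs1, hs2⟩ := split b.natAbs K hb0 hbK2
  have hb1 : b₁ ≠ 0 := by rintro rfl; simp at hbb; omega
  have hb2 : b₂ ≠ 0 := by rintro rfl; simp at hbb; omega
  have hdd : b₁.divisors.card * b₂.divisors.card = b.natAbs.divisors.card := by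
    rw [← hcop.card_divisors_mul, hbb]
  have hd1p : 1 ≤ b₁.divisors.card := Finset.card_pos.2 ⟨1, Nat.one_mem_divisors.2 hb1⟩
  have hd2p : 1 ≤ b₂.divisors.card := Finset.card_pos.2 ⟨1, Nat.one_mem_divisors.2 hb2⟩
  obtain ⟨X, hX⟩ : ∃ X : ℕ, X = min b₁.divisors.card b₂.divisors.card := ⟨_, rfl⟩
  have hX0 : X ≠ 0 := by
    rw [hX]; have := Nat.le_min.2 ⟨hd1p, hd2p⟩; omega
  obtain ⟨s, hs⟩ : ∃ s : ℕ, s = Nat.log (K ^ (2 * c)) X := ⟨_, rfl⟩
  have hKc : 1 < K ^ (2 * c) := Nat.one_lt_pow (by omega) (by omega)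
  have hs3 : (K ^ (2 * c)) ^ s ≤ X := by rw [hs]; exact Nat.pow_log_le_self _ hX0
  have hs4 : X < (K ^ (2 * c)) ^ (s + 1) := by rw [hs]; exact Nat.lt_pow_succ_log_self hKc X
  have hPX : Λ.card ^ (2 * s) ≤ X := by
    refine le_trans (Nat.pow_le_pow_left hΛle (2 * s)) (le_trans (le_of_eq ?_) hs3)
    rw [← pow_mul, ← pow_mul]; congr 1; ring
  have hcore := main_core h hC hκ a b hb K c (2 * s) (even_two_mul s) hK1 hbK ha.le Λ hΛ hΛc hΛ2
    b₁ b₂ hbb (le_trans hPX (hX ▸ min_le_left _ _)) (le_trans hPX (hX ▸ min_le_right _ _))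
  have hxr : (1 : ℝ) ≤ (K : ℝ) := by exact_mod_cast hK1
  have hCx : 4 * C ≤ (K : ℝ) := le_trans hK₁ (by exact_mod_cast hKK₁)
  have hddr : ((b₁.divisors.card : ℝ) * (b₂.divisors.card : ℝ)) = (b.natAbs.divisors.card : ℝ) := by
    exact_mod_cast hdd
  rw [hddr] at hcore
  have hXs : √(b.natAbs.divisors.card : ℝ) ≤ (K : ℝ) * (X : ℝ) := by
    rw [Real.sqrt_le_left (by positivity)]
    have h1 : b.natAbs.divisors.card ≤ (K * X) ^ 2 := by
      rcases le_total b₁.divisors.card b₂.divisors.card with hle | hle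
      · rw [hX, min_eq_left hle]
        refine le_trans hs1 ?_
        exact Nat.pow_le_pow_left (Nat.le_mul_of_pos_left _ (by omega)) 2
      · rw [hX, min_eq_right hle, mul_pow]
        exact hs2
    exact_mod_cast h1
  have hineq := main_ineq (K : ℝ) C κ (c * (1 - κ) - 3) (1 - κ) c s ((A a b).ncard : ℝ)
    (b.natAbs.divisors.card : ℝ) (X : ℝ) hxr hC hCx rfl rfl (by linarith) hc3 (by linarith) hd1 hXs
    (by exact_mod_cast hs4.le) hcore
  refine le_trans hineq ?_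
  have hc0 : (0 : ℝ) < c := by
    have : 0 < c := by omega
    exact_mod_cast this
  have h20 : (b.natAbs.divisors.card : ℝ) ^ (1 - (c * (1 - κ) - 3) / (2 * c)) ≤
      (b.natAbs.divisors.card : ℝ) ^ ((1 + κ) / 2 + ε) := by
    refine Real.rpow_le_rpow_of_exponent_le hd1 ?_
    have : 1 - (c * (1 - κ) - 3) / (2 * (c : ℝ)) = (1 + κ) / 2 + 3 / (2 * c) := by
      field_simp; ring
    rw [this]; linarith
  have h21 : (K : ℝ) ^ (3 * c) ≤ 4 ^ (3 * c) * (1 + Real.log |(b : ℝ)|) ^ M := by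
    calc (K : ℝ) ^ (3 * c) ≤ (4 * (1 + Real.log |(b : ℝ)|)) ^ (3 * c) :=
          pow_le_pow_left₀ (by positivity) hKlog _
      _ = 4 ^ (3 * c) * (1 + Real.log |(b : ℝ)|) ^ (3 * c) := mul_pow _ _ _
      _ ≤ 4 ^ (3 * c) * (1 + Real.log |(b : ℝ)|) ^ M := by
          refine mul_le_mul_of_nonneg_left ?_ (by positivity)
          rw [← Real.rpow_natCast]
          refine Real.rpow_le_rpow_of_exponent_le (by linarith) ?_
          push_cast
          exact hM4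
  calc 6 * (b.natAbs.divisors.card : ℝ) ^ (1 - (c * (1 - κ) - 3) / (2 * c)) * (K : ℝ) ^ (3 * c)
      ≤ 6 * (b.natAbs.divisors.card : ℝ) ^ ((1 + κ) / 2 + ε) *
        (4 ^ (3 * c) * (1 + Real.log |(b : ℝ)|) ^ M) := by
        refine mul_le_mul ?_ h21 (by positivity) (by positivity)
        exact mul_le_mul_of_nonneg_left h20 (by norm_num)
    _ = (6 * 4 ^ (3 * c)) * ((b.natAbs.divisors.card : ℝ) ^ ((1 + κ) / 2 + ε) *
        (1 + Real.log |(b : ℝ)|) ^ M) := by ring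
    _ ≤ M * ((b.natAbs.divisors.card : ℝ) ^ ((1 + κ) / 2 + ε) *
        (1 + Real.log |(b : ℝ)|) ^ M) := mul_le_mul_of_nonneg_right hM3 (by positivity)
    _ = _ := by ring

end Pool.Agent.Lib.MP_6179b0_nt
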