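import Mathlib

/-!
# The maximal order of the number of divisors
-/

set_option autoImplicit false

namespace Pool.Agent.Lib.MP_6179b0_nt

open Finset Filter

theorem wigert_core (n : ℕ) (hn : 3 ≤ n) (z : ℝ) (hz : 1 < z) :
    Real.log (n.divisors.card : ℝ) ≤
      z * Real.log (3 * Real.log n) + Real.log 2 * (Real.log n / Real.log z) := by
  have hn0 : n ≠ 0 := by omega
  have hnr : (3 : ℝ) ≤ n := by exact_mod_cast hn
  have hL : 1 ≤ Real.log n := by
    rw [Real.le_log_iff_exp_le (by linarith)]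
    have := Real.exp_one_lt_d9
    linarith
  have hlz : 0 < Real.log z := Real.log_pos hz
  have hl2 := Real.log_two_gt_d9
  have h1 : Real.log (n.divisors.card : ℝ) =
      ∑ p ∈ n.primeFactors, Real.log ((n.factorization p : ℝ) + 1) := by
    rw [Nat.card_divisors hn0, Nat.cast_prod, Real.log_prod]
    · refine Finset.sum_congr rfl fun p _ => ?_
      push_cast
      rfl
    · intro p _
      positivity
  have h2 : Real.log n = ∑ p ∈ n.primeFactors, (n.factorization p : ℝ) * Real.log p := by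
    conv_lhs => rw [← Nat.prod_factorization_pow_eq_self hn0]
    rw [Finsupp.prod, Nat.cast_prod, Real.log_prod]
    · rw [Nat.support_factorization]
      refine Finset.sum_congr rfl fun p _ => ?_
      rw [Nat.cast_pow, Real.log_pow]
    · intro p hp
      have : p.Prime := Nat.prime_of_mem_primeFactors (by rwa [Nat.support_factorization] at hp)
      have := this.pos
      positivity
  rw [h1, ← Finset.sum_filter_add_sum_filter_not n.primeFactors (fun p : ℕ => (p : ℝ) < z)]
  refine add_le_add ?_ ?_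
  · have h3 : ∀ p ∈ n.primeFactors.filter (fun p : ℕ => (p : ℝ) < z),
        Real.log ((n.factorization p : ℝ) + 1) ≤ Real.log (3 * Real.log n) := by
      intro p hp
      have hpp : p.Prime := Nat.prime_of_mem_primeFactors (Finset.mem_filter.1 hp).1
      refine Real.log_le_log (by positivity) ?_
      have h4 : 2 ^ n.factorization p ≤ n :=
        le_trans (Nat.pow_le_pow_left hpp.two_le _)
          (Nat.le_of_dvd (by omega) (Nat.ordProj_dvd n p))
      have h5 : Real.log ((2 : ℝ) ^ n.factorization p) ≤ Real.log n :=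
        Real.log_le_log (by positivity) (by exact_mod_cast h4)
      rw [Real.log_pow] at h5
      nlinarith [Nat.cast_nonneg (α := ℝ) (n.factorization p)]
    refine le_trans (Finset.sum_le_card_nsmul _ _ _ h3) ?_
    rw [nsmul_eq_mul]
    refine mul_le_mul_of_nonneg_right ?_ (Real.log_nonneg (by linarith))
    have h6 : n.primeFactors.filter (fun p : ℕ => (p : ℝ) < z) ⊆ Finset.Icc 1 ⌊z⌋₊ := by
      intro p hp
      rw [Finset.mem_filter] at hp
      have hpp : p.Prime := Nat.prime_of_mem_primeFactors hp.1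
      rw [Finset.mem_Icc]
      exact ⟨hpp.one_lt.le, Nat.le_floor hp.2.le⟩
    have h7 := Finset.card_le_card h6
    rw [Nat.card_Icc] at h7
    have h8 : ((n.primeFactors.filter (fun p : ℕ => (p : ℝ) < z)).card : ℝ) ≤ (⌊z⌋₊ : ℝ) := by
      exact_mod_cast (by omega : (n.primeFactors.filter (fun p : ℕ => (p : ℝ) < z)).card ≤ ⌊z⌋₊)
    exact le_trans h8 (Nat.floor_le (by linarith))
  · obtain ⟨T, hT⟩ : ∃ T, T = n.primeFactors.filter (fun p : ℕ => ¬ (p : ℝ) < z) := ⟨_, rfl⟩
    rw [← hT]
    have hTsub : T ⊆ n.primeFactors := by rw [hT]; exact Finset.filter_subset _ _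
    have h3 : ∀ p ∈ T, Real.log ((n.factorization p : ℝ) + 1) ≤
        Real.log 2 * (n.factorization p : ℝ) := by
      intro p _
      have h4 : (n.factorization p : ℝ) + 1 ≤ (2 : ℝ) ^ n.factorization p := by
        have : n.factorization p + 1 ≤ 2 ^ n.factorization p := Nat.lt_two_pow_self
        exact_mod_cast this
      have h5 := Real.log_le_log (by positivity) h4
      rw [Real.log_pow] at h5
      linarith
    refine le_trans (Finset.sum_le_sum h3) ?_
    rw [← Finset.mul_sum]
    refine mul_le_mul_of_nonneg_left ?_ (by linarith)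
    rw [le_div_iff₀ hlz, Finset.sum_mul]
    calc ∑ p ∈ T, (n.factorization p : ℝ) * Real.log z
        ≤ ∑ p ∈ T, (n.factorization p : ℝ) * Real.log p := by
          refine Finset.sum_le_sum fun p hp => ?_
          rw [hT, Finset.mem_filter, not_lt] at hp
          exact mul_le_mul_of_nonneg_left (Real.log_le_log (by linarith) hp.2) (by positivity)
      _ ≤ ∑ p ∈ n.primeFactors, (n.factorization p : ℝ) * Real.log p := by
          refine Finset.sum_le_sum_of_subset_of_nonneg hTsub fun p hp _ => ?_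
          have hpp : p.Prime := Nat.prime_of_mem_primeFactors hp
          have : (1 : ℝ) ≤ p := by exact_mod_cast hpp.one_lt.le
          exact mul_nonneg (by positivity) (Real.log_nonneg this)
      _ = Real.log n := h2.symm

/-- the elementary asymptotic inequality -/
theorem wigert_asym (δ ε : ℝ) (hδ : 0 < δ) (hε : 0 < ε) : ∀ᶠ L : ℝ in atTop,
    L ^ (1 - δ) * Real.log (3 * L) * Real.log L ≤ ε * L := by
  have h1 : (fun x : ℝ => Real.log x) =o[atTop] (fun x : ℝ => x ^ (δ / 2)) :=
    isLittleO_log_rpow_atTop (by positivity)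
  have h2 := h1.bound (c := √ε / 2) (by positivity)
  filter_upwards [h2, eventually_ge_atTop 3] with L h3 h4
  have hL0 : 0 < L := by linarith
  have hlog : 0 < Real.log L := Real.log_pos (by linarith)
  rw [Real.norm_of_nonneg hlog.le, Real.norm_of_nonneg (Real.rpow_nonneg hL0.le _)] at h3
  have h5 : Real.log (3 * L) ≤ 2 * Real.log L := by
    rw [Real.log_mul (by norm_num) hL0.ne']
    have := Real.log_le_log (by norm_num : (0 : ℝ) < 3) h4
    linarith
  have h6 : Real.log (3 * L) * Real.log L ≤ ε * L ^ δ := by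
    have h7 : Real.log L * Real.log L ≤ (√ε / 2 * L ^ (δ / 2)) * (√ε / 2 * L ^ (δ / 2)) :=
      mul_self_le_mul_self hlog.le h3
    have h8 : (√ε / 2 * L ^ (δ / 2)) * (√ε / 2 * L ^ (δ / 2)) = ε / 4 * L ^ δ := by
      have e1 : L ^ (δ / 2) * L ^ (δ / 2) = L ^ δ := by
        rw [← Real.rpow_add hL0]; congr 1; ring
      have e2 : √ε * √ε = ε := Real.mul_self_sqrt hε.le
      calc (√ε / 2 * L ^ (δ / 2)) * (√ε / 2 * L ^ (δ / 2))
          = (√ε * √ε) / 4 * (L ^ (δ / 2) * L ^ (δ / 2)) := by ring
        _ = _ := by rw [e1, e2]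
    have h9 : 0 ≤ L ^ δ := Real.rpow_nonneg hL0.le _
    have h10 : 0 ≤ ε * L ^ δ := by positivity
    nlinarith
  calc L ^ (1 - δ) * Real.log (3 * L) * Real.log L
      = L ^ (1 - δ) * (Real.log (3 * L) * Real.log L) := by ring
    _ ≤ L ^ (1 - δ) * (ε * L ^ δ) :=
        mul_le_mul_of_nonneg_left h6 (Real.rpow_nonneg hL0.le _)
    _ = ε * (L ^ (1 - δ) * L ^ δ) := by ring
    _ = ε * L := by
        rw [← Real.rpow_add hL0]
        congr 1
        rw [show (1 : ℝ) - δ + δ = 1 by ring, Real.rpow_one]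

theorem wigert (ε : ℝ) (hε : 0 < ε) : ∃ N : ℕ, ∀ n : ℕ, N ≤ n →
    Real.log (n.divisors.card : ℝ) ≤ (Real.log 2 + ε) * Real.log n / Real.log (Real.log n) := by
  obtain ⟨δ, hδ⟩ : ∃ δ : ℝ, δ = min (1 / 2) (ε / 4) := ⟨_, rfl⟩
  have hδ0 : 0 < δ := by rw [hδ]; positivity
  have hδ1 : δ ≤ 1 / 2 := by rw [hδ]; exact min_le_left _ _
  have hδ2 : δ ≤ ε / 4 := by rw [hδ]; exact min_le_right _ _
  have h1 := (Real.tendsto_log_atTop.comp tendsto_natCast_atTop_atTop).eventually
    ((wigert_asym δ (ε / 2) hδ0 (by positivity)).and (eventually_ge_atTop 3))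
  obtain ⟨N, hN⟩ := (h1.and (eventually_ge_atTop 3)).exists_forall_of_atTop
  refine ⟨N, fun n hn => ?_⟩
  obtain ⟨⟨h2, h3⟩, h4⟩ := hN n hn
  simp only [Function.comp] at h2 h3
  obtain ⟨L, hL⟩ : ∃ L, L = Real.log n := ⟨_, rfl⟩
  rw [← hL] at h2 h3
  have hL0 : 0 < L := by linarith
  have hlog : 0 < Real.log L := Real.log_pos (by linarith)
  have h5 := wigert_core n h4 (L ^ (1 - δ)) (Real.one_lt_rpow (by linarith) (by linarith))
  rw [← hL] at h5 ⊢
  rw [Real.log_rpow hL0] at h5
  rw [le_div_iff₀ hlog]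
  have h6 : Real.log 2 * (L / ((1 - δ) * Real.log L)) * Real.log L ≤ (Real.log 2 + ε / 2) * L := by
    have e1 : Real.log 2 * (L / ((1 - δ) * Real.log L)) * Real.log L = Real.log 2 * (L / (1 - δ)) := by
      have : 1 - δ ≠ 0 := by linarith
      field_simp
    rw [e1]
    have e2 : L / (1 - δ) ≤ L * (1 + 2 * δ) := by
      rw [div_le_iff₀ (by linarith)]
      nlinarith [mul_nonneg hL0.le hδ0.le]
    have e3 := Real.log_two_lt_d9
    have e4 := Real.log_two_gt_d9
    have e5 : Real.log 2 * (L * (1 + 2 * δ)) ≤ (Real.log 2 + ε / 2) * L := by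
      have : Real.log 2 * (2 * δ) ≤ ε / 2 := by nlinarith
      nlinarith
    exact le_trans (mul_le_mul_of_nonneg_left e2 (by linarith)) e5
  calc Real.log (n.divisors.card : ℝ) * Real.log L
      ≤ (L ^ (1 - δ) * Real.log (3 * L) + Real.log 2 * (L / ((1 - δ) * Real.log L))) * Real.log L :=
        mul_le_mul_of_nonneg_right h5 hlog.le
    _ = L ^ (1 - δ) * Real.log (3 * L) * Real.log L +
        Real.log 2 * (L / ((1 - δ) * Real.log L)) * Real.log L := by ring
    _ ≤ ε / 2 * L + (Real.log 2 + ε / 2) * L := add_le_add h2 h6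
    _ = (Real.log 2 + ε) * L := by ring

end Pool.Agent.Lib.MP_6179b0_nt
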