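import Mathlib
import Pool.Agent.Lib.MP_6179b0_nt.Main
import Pool.Agent.Lib.MP_6179b0_nt.Wigert

/-!
# The bound in terms of `log |b| / log log |b|`
-/

set_option autoImplicit false

namespace Pool.Agent.Lib.MP_6179b0_nt

open Finset Filter

theorem final_asym (M ε : ℝ) (hM : 1 ≤ M) (hε : 0 < ε) : ∀ᶠ L : ℝ in atTop,
    (Real.log M + M * Real.log (1 + L)) * Real.log L ≤ ε * L := by
  have hlM : 0 ≤ Real.log M := Real.log_nonneg hM
  obtain ⟨D, hD⟩ : ∃ D : ℝ, D = Real.log M + 2 * M := ⟨_, rfl⟩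
  have hD0 : 0 < D := by rw [hD]; linarith
  have h1 : (fun x : ℝ => Real.log x) =o[atTop] (fun x : ℝ => x ^ ((1 : ℝ) / 2)) :=
    isLittleO_log_rpow_atTop (by positivity)
  have h2 := h1.bound (c := √(ε / D)) (by positivity)
  filter_upwards [h2, eventually_ge_atTop 3] with L h3 h4
  have hL0 : 0 < L := by linarith
  have hlog1 : 1 ≤ Real.log L := by
    rw [Real.le_log_iff_exp_le hL0]
    have := Real.exp_one_lt_d9
    linarith
  rw [Real.norm_of_nonneg (by linarith), Real.norm_of_nonneg (Real.rpow_nonneg hL0.le _)] at h3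
  have h5 : Real.log (1 + L) ≤ 2 * Real.log L := by
    have e1 : Real.log (1 + L) ≤ Real.log (L ^ 2) := Real.log_le_log (by linarith) (by nlinarith)
    rw [Real.log_pow] at e1
    exact_mod_cast e1
  have h6 : Real.log L * Real.log L ≤ ε / D * L := by
    have h7 := mul_self_le_mul_self (by linarith : 0 ≤ Real.log L) h3
    have e1 : L ^ ((1 : ℝ) / 2) * L ^ ((1 : ℝ) / 2) = L := by
      rw [← Real.rpow_add hL0]; norm_num
    have e2 : √(ε / D) * √(ε / D) = ε / D := Real.mul_self_sqrt (by positivity)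
    calc Real.log L * Real.log L ≤ _ := h7
      _ = (√(ε / D) * √(ε / D)) * (L ^ ((1 : ℝ) / 2) * L ^ ((1 : ℝ) / 2)) := by ring
      _ = _ := by rw [e1, e2]
  have h8 : Real.log M + M * Real.log (1 + L) ≤ D * Real.log L := by
    rw [hD]
    nlinarith
  calc (Real.log M + M * Real.log (1 + L)) * Real.log L ≤ D * Real.log L * Real.log L :=
        mul_le_mul_of_nonneg_right h8 (by linarith)
    _ = D * (Real.log L * Real.log L) := by ring
    _ ≤ D * (ε / D * L) := mul_le_mul_of_nonneg_left h6 hD0.le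
    _ = ε * L := by field_simp

theorem final {C κ : ℝ} (h : Bnd C κ) (hC : 0 ≤ C) (hκ : 0 ≤ κ) (hκ1 : κ < 1) (ε : ℝ) (hε : 0 < ε) :
    ∃ N : ℕ, ∀ a b : ℤ, (N : ℤ) ≤ |b| → a ^ 2 ≠ 4 * b →
      Real.log ((A a b).ncard : ℝ) ≤
        ((1 + κ) / 2 * Real.log 2 + ε) * Real.log |(b : ℝ)| / Real.log (Real.log |(b : ℝ)|) := by
  obtain ⟨η, hη⟩ : ∃ η : ℝ, η = min (1 / 2) (ε / 8) := ⟨_, rfl⟩
  have hη0 : 0 < η := by rw [hη]; positivity
  have hη1 : η ≤ 1 / 2 := by rw [hη]; exact min_le_left _ _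
  have hη2 : η ≤ ε / 8 := by rw [hη]; exact min_le_right _ _
  obtain ⟨M₀, hM₀⟩ := main h hC hκ hκ1 η hη0
  obtain ⟨M, hM⟩ : ∃ M : ℝ, M = max M₀ 1 := ⟨_, rfl⟩
  have hM1 : 1 ≤ M := by rw [hM]; exact le_max_right _ _
  have hMM : M₀ ≤ M := by rw [hM]; exact le_max_left _ _
  obtain ⟨N₁, hN₁⟩ := wigert η hη0
  have h1 := (Real.tendsto_log_atTop.comp tendsto_natCast_atTop_atTop).eventually
    ((final_asym M (ε / 2) hM1 (by positivity)).and (eventually_ge_atTop 3))
  obtain ⟨N₂, hN₂⟩ := (h1.and (eventually_ge_atTop 3)).exists_forall_of_atTop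
  refine ⟨max N₁ N₂, fun a b hb hab => ?_⟩
  have hbn : max N₁ N₂ ≤ b.natAbs := by
    have : ((max N₁ N₂ : ℕ) : ℤ) ≤ (b.natAbs : ℤ) := by rw [Int.natCast_natAbs]; exact hb
    exact_mod_cast this
  obtain ⟨n, hn⟩ : ∃ n, n = b.natAbs := ⟨_, rfl⟩
  rw [← hn] at hbn
  have habs : |(b : ℝ)| = (n : ℝ) := by
    have : ((|b| : ℤ) : ℝ) = ((n : ℤ) : ℝ) := by rw [hn, Int.natCast_natAbs]
    rw [Int.cast_abs] at this
    simpa using this
  obtain ⟨⟨h2, h3⟩, h4⟩ := hN₂ n (le_trans (le_max_right _ _) hbn)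
  have h5 := hN₁ n (le_trans (le_max_left _ _) hbn)
  simp only [Function.comp] at h2 h3
  have hb0 : b ≠ 0 := by
    rintro rfl
    simp at hn
    omega
  have h6 := hM₀ a b hb0 hab
  rw [habs] at h6 ⊢
  rw [← hn] at h6
  obtain ⟨L, hL⟩ : ∃ L, L = Real.log n := ⟨_, rfl⟩
  rw [← hL] at h2 h3 h5 h6 ⊢
  have hL0 : 0 < L := by linarith
  have hlog : 0 < Real.log L := Real.log_pos (by linarith)
  have hl2 := Real.log_two_gt_d9
  have hl2' := Real.log_two_lt_d9
  have hd1 : (1 : ℝ) ≤ (n.divisors.card : ℝ) := by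
    have : 1 ≤ n.divisors.card := Finset.card_pos.2 ⟨1, Nat.one_mem_divisors.2 (by omega)⟩
    exact_mod_cast this
  rcases Nat.eq_zero_or_pos (A a b).ncard with h0 | hpos
  · rw [h0]
    simp only [Nat.cast_zero, Real.log_zero]
    positivity
  have hposr : (0 : ℝ) < ((A a b).ncard : ℝ) := by exact_mod_cast hpos
  have h7 : ((A a b).ncard : ℝ) ≤ M * (n.divisors.card : ℝ) ^ ((1 + κ) / 2 + η) * (1 + L) ^ M := by
    refine le_trans h6 ?_
    have e1 : (1 + L) ^ M₀ ≤ (1 + L) ^ M := Real.rpow_le_rpow_of_exponent_le (by linarith) hMM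
    have e2 : 0 ≤ (n.divisors.card : ℝ) ^ ((1 + κ) / 2 + η) := Real.rpow_nonneg (by linarith) _
    have e3 : 0 ≤ (1 + L) ^ M₀ := Real.rpow_nonneg (by linarith) _
    calc M₀ * (n.divisors.card : ℝ) ^ ((1 + κ) / 2 + η) * (1 + L) ^ M₀
        ≤ M * (n.divisors.card : ℝ) ^ ((1 + κ) / 2 + η) * (1 + L) ^ M₀ :=
          mul_le_mul_of_nonneg_right (mul_le_mul_of_nonneg_right hMM e2) e3
      _ ≤ _ := mul_le_mul_of_nonneg_left e1 (mul_nonneg (by linarith) e2)
  have h8 : Real.log ((A a b).ncard : ℝ) ≤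
      Real.log M + ((1 + κ) / 2 + η) * Real.log (n.divisors.card : ℝ) + M * Real.log (1 + L) := by
    refine le_trans (Real.log_le_log hposr h7) (le_of_eq ?_)
    have e1 : (0 : ℝ) < (n.divisors.card : ℝ) ^ ((1 + κ) / 2 + η) := Real.rpow_pos_of_pos (by linarith) _
    have e2 : (0 : ℝ) < (1 + L) ^ M := Real.rpow_pos_of_pos (by linarith) _
    rw [Real.log_mul (by positivity) (by positivity), Real.log_mul (by positivity) (by positivity),
      Real.log_rpow (by linarith), Real.log_rpow (by linarith)]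
  rw [le_div_iff₀ hlog]
  rw [le_div_iff₀ hlog] at h5
  have h9 : ((1 + κ) / 2 + η) * (Real.log 2 + η) ≤ (1 + κ) / 2 * Real.log 2 + ε / 2 := by
    nlinarith
  have h10 : ((1 + κ) / 2 + η) * (Real.log (n.divisors.card : ℝ) * Real.log L) ≤
      ((1 + κ) / 2 + η) * ((Real.log 2 + η) * L) :=
    mul_le_mul_of_nonneg_left h5 (by positivity)
  calc Real.log ((A a b).ncard : ℝ) * Real.log L
      ≤ (Real.log M + ((1 + κ) / 2 + η) * Real.log (n.divisors.card : ℝ) +
          M * Real.log (1 + L)) * Real.log L := mul_le_mul_of_nonneg_right h8 hlog.le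
    _ = (Real.log M + M * Real.log (1 + L)) * Real.log L +
        ((1 + κ) / 2 + η) * (Real.log (n.divisors.card : ℝ) * Real.log L) := by ring
    _ ≤ ε / 2 * L + ((1 + κ) / 2 + η) * ((Real.log 2 + η) * L) := add_le_add h2 h10
    _ = ε / 2 * L + (((1 + κ) / 2 + η) * (Real.log 2 + η)) * L := by ring
    _ ≤ ε / 2 * L + ((1 + κ) / 2 * Real.log 2 + ε / 2) * L := by
        have := mul_le_mul_of_nonneg_right h9 hL0.le
        linarith
    _ = _ := by ring

end Pool.Agent.Lib.MP_6179b0_nt
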